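import Pool.Agent.H732.CP.Defs

/-!
TASK A1.  Cardinal arithmetic.

Proof of `pow_succ_eq` (Hausdorff formula): `succ a` is regular and `> ℵ₁`, so every function
`ℵ₁ → (succ a).ord.ToType` is bounded, hence `(succ a)^ℵ₁ ≤ sum over x of #(Iio x)^ℵ₁
≤ succ a * a^ℵ₁ = succ a`.  For `nu` use `a = 2^ℵ₁`.
-/

set_option autoImplicit false

namespace Pool.Agent.H732.CP

open Set Cardinal Order

theorem pow_succ_eq (a : Cardinal.{0}) (h : ℵ₁ ≤ a) (hp : a ^ (ℵ₁ : Cardinal.{0}) = a) :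
    (succ a) ^ (ℵ₁ : Cardinal.{0}) = succ a := by
  have h0 : ℵ₀ ≤ a := (aleph0_le_aleph 1).trans h
  have hreg : (succ a).IsRegular := isRegular_succ h0
  have h0s : ℵ₀ ≤ succ a := h0.trans (le_succ a)
  apply le_antisymm
  · obtain ⟨α, hαdef⟩ : ∃ α, α = (succ a).ord.ToType := ⟨_, rfl⟩
    subst hαdef
    have hα : #((succ a).ord.ToType) = succ a := mk_ord_toType _
    obtain ⟨ι, hι⟩ : ∃ ι : Type, #ι = ℵ₁ := ⟨_, mk_out _⟩
    have hcof : Order.cof ((succ a).ord.ToType) = succ a := by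
      rw [Ordinal.cof_toType, hreg.cof_ord]
    have hb : ∀ f : ι → (succ a).ord.ToType, ∃ x, ∀ i, f i < x := by
      intro f
      by_contra hcon
      push Not at hcon
      have h1 : IsCofinal (range f) := by
        intro x
        obtain ⟨i, hi⟩ := hcon x
        exact ⟨f i, ⟨i, rfl⟩, hi⟩
      have h2 := Order.cof_le h1
      rw [hcof] at h2
      have h3 : #(range f) ≤ ℵ₁ := hι ▸ mk_range_le
      exact absurd (h2.trans (h3.trans h)) (not_le.2 (lt_succ a))
    choose B hB using hb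
    have hinj : Function.Injective
        (fun f : ι → (succ a).ord.ToType =>
          (⟨B f, fun i => ⟨f i, hB f i⟩⟩ : Σ x : (succ a).ord.ToType, (ι → Iio x))) := by
      intro f g hfg
      have h1 : ∀ (p q : Σ x : (succ a).ord.ToType, (ι → Iio x)), p = q →
          (fun i => ((p.2 i : Iio p.1) : (succ a).ord.ToType)) =
            fun i => ((q.2 i : Iio q.1) : (succ a).ord.ToType) := by
        rintro p q rfl
        rfl
      exact h1 _ _ hfg
    have h2 := mk_le_of_injective hinj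
    rw [mk_sigma] at h2
    have h3 : ∀ x : (succ a).ord.ToType, #(ι → Iio x) ≤ a := by
      intro x
      rw [← power_def, hι]
      have h4 : #(Iio x) ≤ a := lt_succ_iff.1 (mk_Iio_toType_ord_lt x)
      calc #(Iio x) ^ (ℵ₁ : Cardinal.{0}) ≤ a ^ (ℵ₁ : Cardinal.{0}) := power_le_power_right h4
        _ = a := hp
    have h5 : sum (fun x : (succ a).ord.ToType => #(ι → Iio x)) ≤ succ a := by
      calc sum (fun x : (succ a).ord.ToType => #(ι → Iio x)) ≤
          sum (fun _ : (succ a).ord.ToType => a) := sum_le_sum _ _ h3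
        _ = #((succ a).ord.ToType) * a := by rw [sum_const']
        _ = succ a * a := by rw [hα]
        _ ≤ succ a * succ a := mul_le_mul' le_rfl (le_succ a)
        _ = succ a := mul_eq_self h0s
    calc (succ a) ^ (ℵ₁ : Cardinal.{0}) = #(ι → (succ a).ord.ToType) := by
          rw [← power_def, hα, hι]
      _ ≤ _ := h2
      _ ≤ succ a := h5
  · exact self_le_power _ (one_le_aleph0.trans (aleph0_le_aleph 1))

theorem aleph_one_le_two_pow : (ℵ₁ : Cardinal.{0}) ≤ 2 ^ (ℵ₁ : Cardinal.{0}) := (cantor _).le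

/-- the cardinal `nu = (2^ℵ₁)⁺` -/
noncomputable def nu : Cardinal.{0} := succ (2 ^ (ℵ₁ : Cardinal.{0}))

theorem nu_reg : nu.IsRegular :=
  isRegular_succ ((aleph0_le_aleph 1).trans aleph_one_le_two_pow)

theorem aleph_one_lt_nu : ℵ₁ < nu := (cantor _).trans (lt_succ _)

theorem nu_pow : nu ^ (ℵ₁ : Cardinal.{0}) = nu := by
  refine pow_succ_eq _ aleph_one_le_two_pow ?_
  rw [← power_mul, mul_eq_self (aleph0_le_aleph 1)]

theorem mu_pow : (succ nu) ^ (ℵ₁ : Cardinal.{0}) = succ nu :=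
  pow_succ_eq nu aleph_one_lt_nu.le nu_pow

theorem ka_pow : (succ (succ nu)) ^ (ℵ₁ : Cardinal.{0}) = succ (succ nu) :=
  pow_succ_eq (succ nu) (aleph_one_lt_nu.le.trans (le_succ nu)) mu_pow

theorem two_pow_lt_nu : 2 ^ (ℵ₁ : Cardinal.{0}) < nu := lt_succ _

theorem real_lt_nu : #ℝ < nu := by
  rw [mk_real]
  refine lt_of_le_of_lt ?_ two_pow_lt_nu
  rw [← two_power_aleph0]
  exact power_le_power_left two_ne_zero (aleph0_le_aleph 1)

theorem lt_mu_pow (a : Cardinal.{0}) (h : a < succ nu) : a ^ (ℵ₁ : Cardinal.{0}) < succ nu := by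
  have h1 : a ^ (ℵ₁ : Cardinal.{0}) ≤ nu ^ (ℵ₁ : Cardinal.{0}) :=
    power_le_power_right (lt_succ_iff.1 h)
  rw [nu_pow] at h1
  exact lt_succ_iff.2 h1

theorem lt_ka_pow (a : Cardinal.{0}) (h : a < succ (succ nu)) :
    a ^ (ℵ₁ : Cardinal.{0}) < succ (succ nu) := by
  have h1 : a ^ (ℵ₁ : Cardinal.{0}) ≤ (succ nu) ^ (ℵ₁ : Cardinal.{0}) :=
    power_le_power_right (lt_succ_iff.1 h)
  rw [mu_pow] at h1
  exact lt_succ_iff.2 h1

end Pool.Agent.H732.CP
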