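import Pool.Agent.H732.CP.Defs

/-!
TASK A2.  Stationary sets.  The lemmas `Reg.iic, Reg.bdd, St.mono, St.unb, diag, St.fodor,
St.pigeon, ulam, inj_ex` are in the library almost verbatim: modules
`Pool/Graph/R_pool_sql_team_ae5b0c61/H57/Pr1.lean` (section general) and
`Pool/Graph/R_pool_sql_team_ae5b0c61/H82/LadA.lean` (Reg, Reg.iic, Reg.bdd, Reg.clo): fetch them with
`team-store fetch --alone /workdir/pool PATH` and copy (our `Reg`, `St` are the same definitions).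

`clo` generalises `Reg.clo` of LadA from `ℵ₁` to a regular `c < θ`: let
`C = {η | β < η ∧ closed under g}`; it is unbounded (iterate `ω` times), so `#C ≥ c`; let `η` be
least with `c ≤ #(C ∩ Iio η)`.  If `E ⊆ Iio η`, `#E < c` had no bound in `C ∩ Iio η` then
`C ∩ Iio η ⊆ ⋃ y ∈ E, C ∩ Iic y` would have size `< c` (`c` regular:
`card_biUnion_lt_iff_forall_of_isRegular`).

`small`: `x ∈ S` has `Cf ℵ₂`-like cofinality (`Cf c x` with `ℵ₁ < c`), so the trace of `A x` below `x` is bounded by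
`f x < x`; Fodor gives `f x = z` on a stationary set, and the number of subsets of `Iic z` of size
`≤ ℵ₁` is at most `(#(Iic z) + 1)^ℵ₁ < θ` (`Cardinal.mk_bounded_subset_le` or by hand);
pigeonhole.
-/

set_option autoImplicit false

namespace Pool.Agent.H732.CP

open Set Cardinal Order

section general

variable {W : Type} [LinearOrder W] {θ : Cardinal.{0}}

theorem reg_toType {θ : Cardinal.{0}} (h : θ.IsRegular) : Reg θ.ord.ToType θ :=
  ⟨h, mk_ord_toType θ, fun x => by simpa using mk_Iio_lt x⟩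

theorem Reg.iic (h : Reg W θ) (x : W) : #(Iic x) < θ := by
  rw [← Iio_insert]
  exact mk_insert_le.trans_lt (add_lt_of_lt h.reg.aleph0_le (h.iio x)
    (one_lt_aleph0.trans_le h.reg.aleph0_le))

theorem Reg.bdd (h : Reg W θ) {A : Set W} (hA : #A < θ) : ∃ x, ∀ a ∈ A, a < x := by
  by_contra hn
  push Not at hn
  have h1 : #(⋃ a ∈ A, Iic a) < θ :=
    (card_biUnion_lt_iff_forall_of_isRegular (t := fun a _ => Iic a) h.reg hA).2 fun a _ => h.iic a
  have h2 : (⋃ a ∈ A, Iic a) = Set.univ := eq_univ_of_forall fun x =>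
    let ⟨a, ha, h3⟩ := hn x; mem_biUnion ha h3
  rw [h2, mk_univ, h.card] at h1
  exact lt_irrefl _ h1

theorem St.mono {S T : Set W} (h : St S) (h' : S ⊆ T) : St T := fun g a =>
  let ⟨x, h1, h2⟩ := h g a; ⟨x, h' h1, h2⟩

theorem St.unb {S : Set W} (h : St S) : Unb S := fun a =>
  let ⟨x, h1, h2, _⟩ := h id a; ⟨x, h1, h2⟩

theorem St.gt {S : Set W} (h : St S) (a : W) : St {x ∈ S | a < x} := fun g b =>
  let ⟨x, h1, h2, h3⟩ := h g (max a b)
  ⟨x, ⟨h1, (le_max_left _ _).trans_lt h2⟩, (le_max_right _ _).trans_lt h2, h3⟩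

theorem diag (h : Reg W θ) {ι : Type} (S : ι → Set W) (r : ι → W)
    (hr : ∀ a, #{i | r i ≤ a} < θ) (hS : St {x | ∃ i, r i < x ∧ x ∈ S i}) : ∃ i, St (S i) := by
  by_contra hn
  simp only [St, not_exists, not_forall, not_and, not_lt] at hn
  choose g a hg using hn
  have h1 : ∀ y, ∃ b, ∀ z ∈ (fun p : ι × W => max (a p.1) (g p.1 p.2)) '' {i | r i ≤ y} ×ˢ Iic y,
      z < b := fun y => h.bdd (mk_image_le.trans_lt (by
        rw [mk_setProd]; exact mul_lt_of_lt h.reg.aleph0_le (hr y) (h.iic y)))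
  choose G hG using h1
  obtain ⟨b⟩ : Nonempty W := mk_ne_zero_iff.1 (h.card ▸ h.reg.pos.ne')
  obtain ⟨x, ⟨i, h2, h3⟩, -, h4⟩ := hS G b
  obtain ⟨y, h5, h6⟩ := hg i x h3 ((le_max_left _ _).trans_lt
    ((hG (r i) _ ⟨(i, r i), ⟨le_rfl, le_rfl⟩, rfl⟩).trans (h4 _ h2)))
  exact ((le_max_right _ _).trans_lt ((hG (max y (r i)) _ ⟨(i, y), ⟨le_max_right _ _,
    le_max_left _ _⟩, rfl⟩).trans (h4 _ (max_lt h5 h2)))).not_ge h6

theorem St.fodor (h : Reg W θ) {S : Set W} (hS : St S) (f : W → W) (hf : ∀ x ∈ S, f x < x) :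
    ∃ z, St {x ∈ S | f x = z} :=
  diag h _ id h.iic (hS.mono fun x hx => ⟨f x, hf x hx, hx, rfl⟩)

theorem St.pigeon (h : Reg W θ) {S : Set W} (hS : St S) {α : Type} {Y : Set α} (hY : #Y < θ)
    (f : W → α) (hf : ∀ x ∈ S, f x ∈ Y) : ∃ y, St {x ∈ S | f x = y} := by
  obtain ⟨b⟩ : Nonempty W := mk_ne_zero_iff.1 (h.card ▸ h.reg.pos.ne')
  obtain ⟨y, hy⟩ := diag h (fun y : Y => {x ∈ S | f x = y}) (fun _ => b)
    (fun _ => (mk_set_le _).trans_lt hY) ((hS.gt b).mono fun x hx =>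
      ⟨⟨f x, hf x hx.1⟩, hx.2, hx.1, rfl⟩)
  exact ⟨y, hy⟩

theorem ulam (h : Reg W θ) {V Θ : Type} (hV : #V < θ) (hΘ : #Θ ≤ θ) [Nonempty Θ] (e : W → W → V)
    (he : ∀ x, InjOn (e x) (Iio x)) {S : Set W} (hS : St S) :
    ∃ g : W → Θ, ∀ t, St {x ∈ S | g x = t} := by
  classical
  choose i hi using fun a => (hS.gt a).pigeon h (Y := Set.univ) (mk_univ.trans_lt hV)
    (fun x => e x a) fun _ _ => trivial
  obtain ⟨v, hv⟩ := infinite_pigeonhole_card i θ h.card.ge h.reg.aleph0_le (h.reg.cof_ord.symm ▸ hV)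
  obtain ⟨k⟩ := Cardinal.le_def _ _ |>.1 (hΘ.trans hv)
  refine ⟨fun x => if h : ∃ t, (k t).1 < x ∧ e x (k t) = v then h.choose else Classical.arbitrary _,
    fun t => (hi (k t)).mono fun x hx => ⟨hx.1.1, ?_⟩⟩
  have h1 : ∃ t, (k t).1 < x ∧ e x (k t) = v := ⟨t, hx.1.2, hx.2.trans (k t).2⟩
  refine (dif_pos h1).trans ?_
  exact k.injective (Subtype.ext (he x h1.choose_spec.1 hx.1.2
    (h1.choose_spec.2.trans (hx.2.trans (k t).2).symm)))

theorem inj_ex {V : Type} [Nonempty V] (h : ∀ x : W, #(Iio x) ≤ #V) :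
    ∃ e : W → W → V, ∀ x, InjOn (e x) (Iio x) := by
  classical
  have k := fun x => Classical.choice ((Cardinal.le_def _ _).1 (h x))
  exact ⟨fun x y => if h : y < x then k x ⟨y, h⟩ else Classical.arbitrary _, fun x y hy z hz h' => by
    simp only [dif_pos (show y < x from hy), dif_pos (show z < x from hz)] at h'
    exact congrArg Subtype.val ((k x).injective h')⟩

/-- pigeonhole for unbounded sets -/
theorem Unb.pigeon (h : Reg W θ) {S : Set W} (hS : Unb S) {α : Type} (hα : #α < θ)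
    (f : W → α) : ∃ y, Unb {x ∈ S | f x = y} := by
  by_contra hn
  simp only [Unb, not_exists, not_forall, not_and, not_lt] at hn
  choose a ha using hn
  obtain ⟨b, hb⟩ := h.bdd (A := range a) (mk_range_le.trans_lt hα)
  obtain ⟨d, hd, hbd⟩ := hS b
  exact ((hb _ ⟨f d, rfl⟩).trans hbd).not_ge (ha (f d) d ⟨hd, rfl⟩)

theorem clo [WellFoundedLT W] (h : Reg W θ) {c : Cardinal.{0}} (hc : c.IsRegular) (h1 : c < θ) :
    St {x : W | Cf c x} := by
  intro g β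
  let C : Set W := {η | β < η ∧ ∀ x < η, g x < η}
  have h0 : ℵ₀ < θ := hc.aleph0_le.trans_lt h1
  have exmin : ∀ {P : W → Prop}, (∃ x, P x) → ∃ x, P x ∧ ∀ y < x, ¬ P y := by
    intro P hP
    obtain ⟨x, hx, h2⟩ := wellFounded_lt.has_min {x | P x} hP
    exact ⟨x, hx, fun y hy hp => h2 y hp hy⟩
  have hC : ∀ y, ∃ η ∈ C, y < η := by
    intro y
    have h2 : ∀ x : W, ∃ x', ∀ a ∈ Iic x ∪ g '' Iic x, a < x' := fun x => h.bdd
      ((mk_union_le _ _).trans_lt (add_lt_of_lt h0.le (h.iic x) (mk_image_le.trans_lt (h.iic x))))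
    choose nx hnx using h2
    let s : ℕ → W := fun n => nx^[n] (max β y)
    have hs : ∀ n, s (n + 1) = nx (s n) := fun n => Function.iterate_succ_apply' _ _ _
    obtain ⟨η, h3, h4⟩ := exmin (h.bdd (A := range s)
      ((le_aleph0_iff_set_countable.2 (countable_range s)).trans_lt h0))
    refine ⟨η, ⟨(le_max_left β y).trans_lt (h3 _ ⟨0, rfl⟩), fun x hx => ?_⟩,
      (le_max_right β y).trans_lt (h3 _ ⟨0, rfl⟩)⟩
    have h5 := h4 x hx
    push Not at h5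
    obtain ⟨_, ⟨n, rfl⟩, h5⟩ := h5
    exact (hnx (s n) _ (Or.inr ⟨x, h5, rfl⟩)).trans (hs n ▸ h3 _ ⟨n + 1, rfl⟩)
  have h2 : c ≤ #C := by
    by_contra hn
    obtain ⟨x, hx⟩ := h.bdd ((not_le.1 hn).trans h1)
    obtain ⟨η, h3, h4⟩ := hC x
    exact lt_asymm h4 (hx η h3)
  obtain ⟨p, hp, hp1⟩ := le_mk_iff_exists_subset.1 h2
  obtain ⟨x, hx⟩ := h.bdd (hp1.trans_lt h1)
  obtain ⟨η, h3, h4⟩ := exmin (P := fun η => ¬ #(C ∩ Iio η : Set W) < c) ⟨x, fun hlt => by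
    have h5 : #p ≤ #(C ∩ Iio x : Set W) := mk_le_mk_of_subset (subset_inter hp hx)
    exact absurd (hp1.symm.le.trans h5) (not_le.2 hlt)⟩
  have h5 : ∀ y < η, #(C ∩ Iic y : Set W) < c := fun y hy => by
    have h6 := not_not.1 (h4 y hy)
    have h7 : (C ∩ Iic y : Set W) ⊆ insert y (C ∩ Iio y) := fun a ha => by
      rcases ha.2.eq_or_lt with h | h
      exacts [Or.inl h, Or.inr ⟨ha.1, h⟩]
    exact (mk_le_mk_of_subset h7).trans_lt (mk_insert_le.trans_lt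
      (add_lt_of_lt hc.aleph0_le h6 (one_lt_aleph0.trans_le hc.aleph0_le)))
  have h6 : ∀ E : Set W, #E < c → (∀ y ∈ E, y < η) → ∃ x ∈ C, x < η ∧ ∀ y ∈ E, y < x := by
    intro E hE hE'
    by_contra hn
    push Not at hn
    refine h3 ?_
    have h7 : #(⋃ y ∈ E, (C ∩ Iic y : Set W)) < c :=
      (card_biUnion_lt_iff_forall_of_isRegular (t := fun y _ => (C ∩ Iic y : Set W)) hc hE).2
        fun y hy => h5 y (hE' y hy)
    refine (mk_le_mk_of_subset fun a ha => ?_).trans_lt h7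
    obtain ⟨y, hy, h8⟩ := hn a ha.1 ha.2
    exact mem_biUnion hy ⟨ha.1, h8⟩
  have h7 : ∀ y < η, ∃ d ∈ C ∩ Iio η, y < d := fun y hy => by
    obtain ⟨d, hd, h7, h8⟩ := h6 {y} (by
      rw [mk_singleton]
      exact one_lt_aleph0.trans_le hc.aleph0_le) (by simpa using hy)
    exact ⟨d, ⟨hd, h7⟩, h8 y rfl⟩
  obtain ⟨d, hd, h8, -⟩ := h6 ∅ (by
    rw [mk_eq_zero]
    exact aleph0_pos.trans_le hc.aleph0_le) (by simp)
  refine ⟨η, fun E hE hE' => ?_, hd.1.trans h8, fun y hy => ?_⟩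
  · obtain ⟨x, -, h9⟩ := h6 E hE hE'
    exact ⟨x, h9⟩
  · obtain ⟨d, hd, h9⟩ := h7 y hy
    exact (hd.1.2 y h9).trans hd.2

theorem St.small (h : Reg W θ) {c : Cardinal.{0}} (h1 : ℵ₁ < c)
    (hp : ∀ a < θ, a ^ (ℵ₁ : Cardinal.{0}) < θ) {S : Set W} (hS : St S) (hc : ∀ x ∈ S, Cf c x)
    (A : W → Set W) (hA : ∀ x, #(A x) ≤ ℵ₁) :
    ∃ R, St {x ∈ S | {y | y < x ∧ y ∈ A x} = R} := by
  have h0 : ℵ₀ < θ := by
    have e1 : (2 : Cardinal.{0}) < θ := (natCast_lt_aleph0 (n := 2)).trans_le h.reg.aleph0_le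
    have e2 : ℵ₁ < θ := (cantor _).trans (hp 2 e1)
    exact aleph0_lt_aleph_one.trans e2
  have hf : ∀ x : W, ∃ z : W, x ∈ S → z < x ∧ ∀ y ∈ {y | y < x ∧ y ∈ A x}, y < z := by
    intro x
    by_cases hx : x ∈ S
    · obtain ⟨z, hz1, hz2⟩ := hc x hx {y | y < x ∧ y ∈ A x}
        (((mk_le_mk_of_subset fun y hy => hy.2).trans (hA x)).trans_lt h1) fun y hy => hy.1
      exact ⟨z, fun _ => ⟨hz1, hz2⟩⟩
    · exact ⟨x, fun h' => absurd h' hx⟩
  choose f hf using hf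
  obtain ⟨z, hz⟩ := hS.fodor h f fun x hx => (hf x hx).1
  have hY : #{t : Set W | t ⊆ Iic z ∧ #t ≤ ℵ₁} < θ :=
    (mk_bounded_subset_le (Iic z) ℵ₁).trans_lt (hp _ (max_lt (h.iic z) h0))
  obtain ⟨R, hR⟩ := hz.pigeon h hY (fun x => {y | y < x ∧ y ∈ A x}) fun x hx =>
    ⟨fun y hy => ((hf x hx.1).2 y hy).le.trans_eq hx.2,
      (mk_le_mk_of_subset fun y hy => hy.2).trans (hA x)⟩
  exact ⟨R, hR.mono fun x hx => ⟨hx.1.1, hx.2⟩⟩

end general

end Pool.Agent.H732.CP
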