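import Pool.Agent.H732.CP.A2

/-!
TASK A3.  Walks on ordinals, generalisation of the theorem `walks` of the library module
`Pool/Graph/R_pool_sql_team_ae5b0c61/H57/Pr1.lean` (there `W = ω₂`, `W1 = ω₁`, `Unc` = uncountable
cofinality; the same proof works here: `C b ∩ Iio d` injects by `e b` into `Iic (e b d)`, which has
size `< μ`, so it is bounded below `d` by `Cf μ d`; for the family `B` of size `≤ ℵ₁ < μ` take a
bound of the `l b`).
-/

set_option autoImplicit false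

namespace Pool.Agent.H732.CP

open Set Cardinal Order

theorem walks {W W1 : Type} [LinearOrder W] [WellFoundedLT W] [LinearOrder W1] [WellFoundedLT W1]
    {μ : Cardinal.{0}} (hμ : ℵ₁ < μ) (h1 : Reg W1 μ) (e : W → W → W1)
    (he : ∀ x, InjOn (e x) (Iio x)) :
    ∃ Tr : W → W → Finset W, (∀ a b, a < b → b ∈ Tr a b) ∧
      ∀ d, Cf μ d → ∀ B : Set W, #B ≤ ℵ₁ → (∀ b ∈ B, d ≤ b) →
        ∃ l < d, ∀ b ∈ B, ∀ a, l < a → a < d → Tr a b = Tr d b ∪ Tr a d := by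
  classical
  have hμ0 : 0 < μ := lt_of_le_of_lt zero_le hμ
  let C : W → Set W := fun b => {c | c < b ∧ ∀ d < b, e b d < e b c → d < c}
  have h2 : ∀ a b, ∃ c, a < b → (c ∈ C b ∧ a ≤ c) ∧ ∀ y < c, ¬ (y ∈ C b ∧ a ≤ y) := fun a b => by
    by_cases h : a < b
    · have hne : (e b '' Ico a b).Nonempty := ⟨_, a, ⟨le_rfl, h⟩, rfl⟩
      obtain ⟨m, ⟨c, hc1, hc2⟩, hm⟩ := (wellFounded_lt (α := W1)).has_min _ hne
      have hcC : c ∈ C b ∧ a ≤ c := by
        refine ⟨⟨hc1.2, fun d hd h' => ?_⟩, hc1.1⟩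
        have h3 : ¬ a ≤ d := fun h4 => hm _ ⟨d, ⟨h4, hd⟩, rfl⟩ (hc2 ▸ h')
        exact (not_le.1 h3).trans_le hc1.1
      obtain ⟨c', hc', hmin⟩ := (wellFounded_lt (α := W)).has_min {c | c ∈ C b ∧ a ≤ c} ⟨c, hcC⟩
      exact ⟨c', fun _ => ⟨hc', fun y hy h' => hmin y h' hy⟩⟩
    · exact ⟨a, fun h' => absurd h' h⟩
  choose nx hn using h2
  let Tr : W → W → Finset W := fun a => (wellFounded_lt (α := W)).fix fun b rc =>
    if h : a < b then insert b (rc (nx a b) (hn a b h).1.1.1) else ∅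
  have hT : ∀ a b, Tr a b = if a < b then insert b (Tr a (nx a b)) else ∅ := fun a b =>
    (WellFounded.fix_eq _ _ _).trans (dite_eq_ite ..)
  have h3 : ∀ d, Cf μ d → ∀ b, d ≤ b → ∃ l < d, ∀ a, l < a → a < d →
      Tr a b = Tr d b ∪ Tr a d := fun d hd b => by
    induction b using WellFoundedLT.induction with
    | ind b ih =>
    intro hb
    rcases hb.eq_or_lt with rfl | hb
    · obtain ⟨l, hl, -⟩ := hd ∅ (by rw [mk_eq_zero]; exact hμ0) (by simp)
      exact ⟨l, hl, fun a _ _ => by rw [hT d d]; simp⟩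
    have hcard : #(C b ∩ Iio d : Set W) < μ := by
      have h4 : #(e b '' (C b ∩ Iio d)) = #(C b ∩ Iio d : Set W) :=
        mk_image_eq_of_injOn _ _ ((he b).mono fun x hx => hx.1.1)
      rw [← h4]
      refine (mk_le_mk_of_subset ?_).trans_lt (h1.iic (e b d))
      rintro _ ⟨x, hx, rfl⟩
      exact not_lt.1 fun h => (hx.1.2 d hb h).not_gt hx.2
    obtain ⟨l, h3, h4⟩ := hd (C b ∩ Iio d) hcard fun x hx => hx.2
    obtain ⟨l', h5, h6⟩ := ih _ (hn d b hb).1.1.1 (hn d b hb).1.2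
    refine ⟨max l l', max_lt h3 h5, fun a h7 h8 => ?_⟩
    have h9 := hn a b (h8.trans hb)
    have h10 : nx a b = nx d b := le_antisymm
      (not_lt.1 fun h => h9.2 _ h ⟨(hn d b hb).1.1, h8.le.trans (hn d b hb).1.2⟩)
      (not_lt.1 fun h => (hn d b hb).2 _ h ⟨h9.1.1, not_lt.1 fun h' =>
        (((h4 _ ⟨h9.1.1, h'⟩).trans_le (le_max_left _ _)).trans h7).not_ge h9.1.2⟩)
    rw [hT a b, hT d b, if_pos hb, if_pos (h8.trans hb), h10,
      h6 a ((le_max_right _ _).trans_lt h7) h8, Finset.insert_union]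
  refine ⟨Tr, fun a b h => by rw [hT, if_pos h]; simp, fun d hd B hBc hB => ?_⟩
  choose! l h4 h5 using h3 d hd
  obtain ⟨l', h6, h7⟩ := hd (l '' B) (mk_image_le.trans_lt (hBc.trans_lt hμ))
    (forall_mem_image.2 fun b hb => h4 b (hB b hb))
  exact ⟨l', h6, fun b hb a h8 => h5 b (hB b hb) a ((h7 _ ⟨b, hb, rfl⟩).trans h8)⟩

end Pool.Agent.H732.CP
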