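import Pool.Agent.H732.CP.A3

/-!
TASK A4.  Strong colouring `Pr₁(ν⁺⁺, ν⁺⁺, ν⁺, ω₂)`.

Generalisation of the theorem `pr1` of `Pool/Graph/R_pool_sql_team_ae5b0c61/H57/Pr1.lean`
(there `ω, ω₁, ω₂` are our `V1 = ν`, `W1 = ν⁺`, `W = ν⁺⁺`, and the finite blocks become blocks of size
`≤ ℵ₁`).
-/

set_option autoImplicit false

namespace Pool.Agent.H732.CP

open Set Cardinal Order

private theorem a4_img {α β : Type} (f : α → β) {S : Set α} (hS : #S ≤ ℵ₁) : #(f '' S) ≤ ℵ₁ :=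
  mk_image_le.trans hS

private theorem a4_union {α : Type} {S T : Set α} (hS : #S ≤ ℵ₁) (hT : #T ≤ ℵ₁) :
    #(S ∪ T : Set α) ≤ ℵ₁ :=
  (mk_union_le S T).trans (add_le_of_le aleph0_lt_aleph_one.le hS hT)

private theorem a4_fin {α : Type} (S : Finset α) : #(S : Set α) ≤ ℵ₁ :=
  (Finset.finite_toSet S).lt_aleph0.le.trans aleph0_lt_aleph_one.le

private theorem a4_bUnion {α β : Type} {S : Set α} (hS : #S ≤ ℵ₁) (F : α → Finset β) :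
    #(⋃ x ∈ S, (F x : Set β) : Set β) ≤ ℵ₁ := by
  refine (mk_biUnion_le _ _).trans ?_
  refine mul_le_of_le aleph0_lt_aleph_one.le hS ?_
  exact ciSup_le' fun x => a4_fin (F x)

private theorem a4_pairs {α β : Type} {S : Set α} (hS : #S ≤ ℵ₁) (e : α → α → β) :
    #{z | ∃ x ∈ S, ∃ y ∈ S, z = e x y} ≤ ℵ₁ := by
  have h1 : {z | ∃ x ∈ S, ∃ y ∈ S, z = e x y} ⊆ (fun p : α × α => e p.1 p.2) '' (S ×ˢ S) := by
    rintro z ⟨x, hx, y, hy, rfl⟩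
    exact ⟨(x, y), ⟨hx, hy⟩, rfl⟩
  refine (mk_le_mk_of_subset h1).trans (a4_img _ ?_)
  rw [mk_setProd]
  exact mul_le_of_le aleph0_lt_aleph_one.le hS hS

theorem thmA {ν : Cardinal.{0}} (hν : ν.IsRegular) (h1 : ℵ₁ < ν)
    (hp : ∀ a < succ ν, a ^ (ℵ₁ : Cardinal.{0}) < succ ν)
    {W : Type} [LinearOrder W] [WellFoundedLT W] (hW : Reg W (succ (succ ν)))
    {Θ : Type} [Nonempty Θ] (hΘ : #Θ ≤ succ ν) :
    ∃ c : W → W → Θ, ∀ (A B : W → Set W) (T : Set W), (∀ d, #(A d) ≤ ℵ₁) → (∀ d, #(B d) ≤ ℵ₁) →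
      Unb T → (∀ d ∈ T, (∀ x ∈ A d, d ≤ x) ∧ ∀ x ∈ B d, d ≤ x) →
      ∀ t, ∃ g ∈ T, ∃ d ∈ T, g < d ∧ ∀ x ∈ A g, x < d ∧ ∀ y ∈ B d, c x y = t := by
  classical
  have hν0 : ℵ₀ ≤ ν := hν.aleph0_le
  have r1 : (succ ν).IsRegular := isRegular_succ hν0
  have R1 : Reg (succ ν).ord.ToType (succ ν) := reg_toType r1
  have R0 : Reg ν.ord.ToType ν := reg_toType hν
  obtain ⟨W1, i1, i2, R1⟩ : ∃ (W1 : Type) (_ : LinearOrder W1) (_ : WellFoundedLT W1),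
    Reg W1 (succ ν) := ⟨_, _, inferInstance, R1⟩
  obtain ⟨V1, i3, R0⟩ : ∃ (V1 : Type) (_ : LinearOrder V1), Reg V1 ν := ⟨_, _, R0⟩
  have n1' : Nonempty W1 := mk_ne_zero_iff.1 (R1.card ▸ R1.reg.pos.ne')
  have n0' : Nonempty V1 := mk_ne_zero_iff.1 (R0.card ▸ R0.reg.pos.ne')
  have nW : Nonempty W := mk_ne_zero_iff.1 (hW.card ▸ hW.reg.pos.ne')
  have lt1 : ν < succ ν := lt_succ ν
  have lt2 : succ ν < succ (succ ν) := lt_succ _
  have al1 : (ℵ₁ : Cardinal.{0}) < succ ν := h1.trans lt1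
  have al2 : (ℵ₁ : Cardinal.{0}) < succ (succ ν) := al1.trans lt2
  obtain ⟨e2, he2⟩ : ∃ e : W → W → W1, ∀ x, InjOn (e x) (Iio x) :=
    inj_ex fun x => (Order.lt_succ_iff.1 (hW.iio x)).trans_eq R1.card.symm
  obtain ⟨e, he⟩ : ∃ e : W1 → W1 → V1, ∀ x, InjOn (e x) (Iio x) :=
    inj_ex fun x => (Order.lt_succ_iff.1 (R1.iio x)).trans_eq R0.card.symm
  obtain ⟨Tr, w1, w2⟩ := walks al1 R1 e2 he2
  have sW : St {x : W | Cf (succ ν) x} := clo hW r1 lt2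
  have sW1 : St {x : W1 | Cf ν x} := clo R1 hν lt1
  obtain ⟨h, hh⟩ := ulam (Θ := W1) hW (R1.card.trans_lt lt2) (R1.card.le.trans lt2.le)
    e2 he2 sW
  obtain ⟨g, hg⟩ := ulam R1 (R0.card.trans_lt lt1) hΘ e he sW1
  let Co : Finset W1 → W1 → W1 → Prop := fun L x y =>
    x ∈ L ∧ y ∈ L ∧ x < y ∧ ∀ z ∈ L, z < y → z ≤ x
  let P : Finset W1 → W1 → Prop := fun L y =>
    ∃ x, Co L x y ∧ ∀ x' y', Co L x' y' → y' ≠ y → e y' x' < e y x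
  refine ⟨fun a b => g (if h : ∃ y, P ((Tr a b).image h) y then h.choose else
    Classical.arbitrary _), fun A B T hAc hBc hT hA t => ?_⟩
  choose u u1 u2 using hT
  choose! Λ l1 l2 using fun d (hd : d ∈ {x : W | Cf (succ ν) x}) =>
    w2 d hd (B (u d)) (hBc _) fun b hb => (u2 d).le.trans ((hA _ (u1 d)).2 b hb)
  choose z hz using fun τ => (hh τ).fodor hW Λ fun x hx => l1 x hx.1
  obtain ⟨z0, hz0⟩ := hW.bdd (A := range z) (mk_range_le.trans_lt (R1.card.trans_lt lt2))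
  choose g0 hg0 using fun a => hW.bdd (A := insert (u a) (A (u a)))
    ((mk_insert_le.trans (add_le_of_le aleph0_lt_aleph_one.le (hAc _)
      (one_le_aleph0.trans aleph0_lt_aleph_one.le))).trans_lt al2)
  choose ε a1 a2 a3 using fun a σ => hh σ g0 a
  choose g1 hg1 using fun a => hW.bdd (A := range (ε a))
    (mk_range_le.trans_lt (R1.card.trans_lt lt2))
  obtain ⟨D, d1, d2, d3⟩ := sW g1 z0
  choose δ b1 b2 using fun τ => (hz τ).unb D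
  choose l l3 l4 using fun τ => w2 D d1 (B (u (δ τ))) (hBc _) fun b hb =>
    ((b2 τ).trans (u2 _)).le.trans ((hA _ (u1 _)).2 b hb)
  choose ζ c1 c2 using fun σ => d1 (l '' Iio σ) (mk_image_le.trans_lt (R1.iio σ))
    (forall_mem_image.2 fun τ _ => l3 τ)
  have c3 : ∀ σ, ε (ζ σ) σ < D := fun σ => (hg1 _ _ ⟨σ, rfl⟩).trans (d3 _ (c1 σ))
  choose m m1 m2 using fun σ => w2 _ (a1 (ζ σ) σ).1 {D}
    ((mk_singleton D).le.trans (one_le_aleph0.trans aleph0_lt_aleph_one.le))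
    (by simpa using (c3 σ).le)
  let γ : W1 → W := fun σ => u (max (ζ σ) (m σ))
  have c4 : ∀ σ, ∀ x ∈ insert (γ σ) (A (γ σ)), x < ε (ζ σ) σ := fun σ x hx =>
    (hg0 _ x hx).trans (a3 _ σ _ (max_lt (a2 _ σ) (m1 σ)))
  let U : W1 → Set W1 := fun τ => h '' ⋃ b ∈ B (u (δ τ)), (Tr D b : Set W)
  let V' : W1 → Set W1 := fun σ => h '' ⋃ x ∈ A (γ σ), (Tr x D : Set W)
  have hUc : ∀ τ, #(U τ) ≤ ℵ₁ := fun τ => a4_img _ (a4_bUnion (hBc _) _)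
  have hVc : ∀ σ, #(V' σ) ≤ ℵ₁ := fun σ => a4_img _ (a4_bUnion (hAc _) _)
  have hEx : ∀ L : Set W1, ∃ E : V1, #L ≤ ℵ₁ → ∀ x ∈ L, ∀ y ∈ L, e x y < E := by
    intro L
    by_cases hL : #L ≤ ℵ₁
    · obtain ⟨E, hE⟩ := R0.bdd (A := {z | ∃ x ∈ L, ∃ y ∈ L, z = e x y})
        ((a4_pairs hL e).trans_lt h1)
      exact ⟨E, fun _ x hx y hy => hE _ ⟨x, hx, y, hy, rfl⟩⟩
    · exact ⟨Classical.arbitrary _, fun h => absurd h hL⟩
  choose E hE using hEx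
  obtain ⟨R, hR⟩ := (hg t).small R1 h1 hp (fun x hx => hx.1) V' hVc
  obtain ⟨n1, n2⟩ := hR.pigeon R1 (Y := Set.univ) (mk_univ.trans_lt (R0.card.trans_lt lt1))
    (fun σ => E (V' σ)) fun _ _ => trivial
  obtain ⟨n3, n4⟩ := sW1.pigeon R1 (Y := Set.univ) (mk_univ.trans_lt (R0.card.trans_lt lt1))
    (fun τ => E (U τ ∪ R)) fun _ _ => trivial
  choose τ t1 t2 using n4.unb
  choose g2 hg2 using fun a => R1.bdd (A := insert (τ a) (U (τ a)))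
    ((mk_insert_le.trans (add_le_of_le aleph0_lt_aleph_one.le (hUc _)
      (one_le_aleph0.trans aleph0_lt_aleph_one.le))).trans_lt al1)
  obtain ⟨σ, ⟨⟨⟨s0, s1⟩, s2⟩, s3⟩, s4, s5⟩ := n2 g2 (Classical.arbitrary _)
  have hRc : #R ≤ ℵ₁ := by
    rw [← s2]
    exact (mk_le_mk_of_subset fun y hy => hy.2).trans (hVc σ)
  have s6 : #{x | x < σ ∧ e σ x ≤ max n1 n3} < ν := by
    rw [← mk_image_eq_of_injOn (e σ) _ ((he σ).mono fun x hx => hx.1)]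
    exact (mk_le_mk_of_subset (image_subset_iff.2 fun x hx => hx.2)).trans_lt
      (R0.iic (max n1 n3))
  obtain ⟨a, s7, s8⟩ := s0 ({x | x < σ ∧ e σ x ≤ max n1 n3} ∪ R)
    ((mk_union_le _ _).trans_lt (add_lt_of_lt hν0 s6 (hRc.trans_lt h1))) fun y hy => by
      rcases hy with hy | hy
      · exact hy.1
      · rw [← s2] at hy
        exact hy.1
  have s9 : ∀ x ∈ insert (τ a) (U (τ a)), x < σ := fun x hx => (hg2 a x hx).trans (s5 a s7)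
  have s10 : ε (ζ σ) σ < u (δ (τ a)) := (c3 σ).trans ((b2 _).trans (u2 _))
  refine ⟨γ σ, u1 _, u (δ (τ a)), u1 _, (c4 σ _ (Or.inl rfl)).trans s10, fun x hx =>
    ⟨(c4 σ x (Or.inr hx)).trans s10, fun y hy => ?_⟩⟩
  have x1 : max (ζ σ) (m σ) < x := (u2 _).trans_le ((hA _ (u1 _)).1 x hx)
  have x2 := c4 σ x (Or.inr hx)
  have x3 := l4 _ y hy x ((c2 σ _ ⟨_, s9 _ (Or.inl rfl), rfl⟩).trans
    ((le_max_left _ _).trans_lt x1)) (x2.trans (c3 σ))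
  have x4 : τ a ∈ (Tr x y).image h := Finset.mem_image.2 ⟨δ (τ a), by
    rw [x3, l2 _ (b1 _).1.1 y hy D ((b1 _).2 ▸ (hz0 _ ⟨_, rfl⟩).trans d2) (b2 _)]
    simp [w1 _ _ (b2 _)], (b1 _).1.2⟩
  have x5 : σ ∈ (Tr x y).image h := Finset.mem_image.2 ⟨ε (ζ σ) σ, by
    rw [x3, m2 σ D (by simp) x ((le_max_right _ _).trans_lt x1) x2]
    simp [w1 _ _ x2], (a1 _ σ).2⟩
  have x6 : ∀ v ∈ (Tr x y).image h, v ∈ U (τ a) ∨ v ∈ V' σ := fun v hv => by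
    rw [x3, Finset.image_union] at hv
    rcases Finset.mem_union.1 hv with hv | hv
    · obtain ⟨w, hw, rfl⟩ := Finset.mem_image.1 hv
      exact Or.inl ⟨w, mem_biUnion hy hw, rfl⟩
    · obtain ⟨w, hw, rfl⟩ := Finset.mem_image.1 hv
      exact Or.inr ⟨w, mem_biUnion (t := fun x => (Tr x D : Set W)) hx hw, rfl⟩
  beta_reduce
  generalize (Tr x y).image h = L at x4 x5 x6
  have x7 : P L σ := by
    obtain ⟨v, v1, v2⟩ := (L.filter (· < σ)).exists_max_image id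
      ⟨_, Finset.mem_filter.2 ⟨x4, s9 _ (Or.inl rfl)⟩⟩
    rw [Finset.mem_filter] at v1
    refine ⟨v, ⟨v1.1, x5, v1.2, fun z h1 h2 => v2 z (Finset.mem_filter.2 ⟨h1, h2⟩)⟩,
      fun x' y' ⟨q1, q2, q3, q4⟩ q5 => lt_of_le_of_lt ?_ (not_le.1 fun h =>
        ((t2 a).trans_le (v2 _ (Finset.mem_filter.2 ⟨x4, s9 _ (Or.inl rfl)⟩))).not_ge
          (s8 v (Or.inl ⟨v1.2, h⟩)).le)⟩
    rcases q5.lt_or_gt with q6 | q6
    · have : ∀ v ∈ L, v < σ → v ∈ U (τ a) ∪ R := fun v h1 h2 =>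
        (x6 v h1).imp_right fun h => s2.subset ⟨h2, h⟩
      exact le_max_of_le_right ((hE _ (a4_union (hUc _) hRc) _ (this _ q2 q6) _
        (this _ q1 (q3.trans q6))).le.trans (t1 a).2.le)
    · have : ∀ v ∈ L, σ ≤ v → v ∈ V' σ := fun v h1 h2 =>
        (x6 v h1).resolve_left fun h => (s9 v (Or.inr h)).not_ge h2
      exact le_max_of_le_left ((hE _ (hVc _) _ (this _ q2 q6.le) _
        (this _ q1 (q4 σ x5 q6))).le.trans s3.le)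
  have x8 : ∃ y, P L y := ⟨σ, x7⟩
  rw [dif_pos x8, ← s1]
  congr 1
  by_contra hn
  obtain ⟨v, v1, v2⟩ := x7
  obtain ⟨v', v3, v4⟩ := x8.choose_spec
  exact (v2 _ _ v3 hn).not_gt (v4 _ _ v1 (Ne.symm hn))

end Pool.Agent.H732.CP
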