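import Pool.Agent.H732.CP.Defs

/-!
TASK A5.  Engelking-Karlowicz functions.

Fix `I := (ℵ₁).ord.ToType` (or any type with `#I = ℵ₁`), `M := μ.ord.ToType` (`#M = μ`), an injection
`b : W → Set M` (`#W ≤ 2^μ`).  `Θ := (I → M) × (I → Set I) × (I → Co)`; for `t = (a, r, v)` put
`ev t y := v n` if there is `n` with `r n = a ⁻¹' (b y)` (choose one), otherwise an arbitrary value.
`#Θ ≤ μ^ℵ₁ * (2^ℵ₁)^ℵ₁ * μ^ℵ₁ = μ`.
For `D` with `#D ≤ ℵ₁` and nonempty choose `a : I → M` whose range contains for all `y ≠ y'` in `D` a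
point of the symmetric difference of `b y`, `b y'` (at most `ℵ₁ * ℵ₁ = ℵ₁` points), a surjection
`d : I → D`, `r n := a ⁻¹' (b (d n))`, `v n := φ (d n)`.  The preimages `a ⁻¹' (b y)`, `y ∈ D`, are
distinct, so `ev t y = φ y`.
(helper100)
-/

set_option autoImplicit false

namespace Pool.Agent.H732.CP

open Set Cardinal Order

namespace A5x

open Classical in
/-- the functions -/
noncomputable def evf {I M W Co : Type} [Nonempty Co] (b : W → Set M)
    (t : (I → M) × (I → Set I) × (I → Co)) (y : W) : Co :=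
  if h : ∃ n, t.2.1 n = t.1 ⁻¹' (b y) then t.2.2 h.choose else Classical.arbitrary Co

lemma evf_spec {I M W Co : Type} [Nonempty Co] (b : W → Set M)
    (t : (I → M) × (I → Set I) × (I → Co)) (y : W) (c : Co)
    (h1 : ∃ n, t.2.1 n = t.1 ⁻¹' (b y)) (h2 : ∀ n, t.2.1 n = t.1 ⁻¹' (b y) → t.2.2 n = c) :
    evf b t y = c := by
  unfold evf
  rw [dif_pos h1]
  exact h2 _ h1.choose_spec

lemma exists_sep {M W : Type} [Nonempty M] {b : W → Set M} (hb : Function.Injective b) :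
    ∃ m : W × W → M, ∀ y y', (m (y, y') ∈ b y ↔ m (y, y') ∈ b y') → y = y' := by
  have h : ∀ p : W × W, ∃ m : M, (m ∈ b p.1 ↔ m ∈ b p.2) → p.1 = p.2 := by
    intro p
    by_cases hp : p.1 = p.2
    · exact ⟨Classical.arbitrary M, fun _ => hp⟩
    · by_contra hcon
      push Not at hcon
      apply hp
      apply hb
      ext m
      exact (hcon m).1
  choose m hm using h
  exact ⟨m, fun y y' => hm (y, y')⟩

end A5x

theorem thmB {μ : Cardinal.{0}} (hμ : μ ^ (ℵ₁ : Cardinal.{0}) = μ)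
    (h2 : 2 ^ (ℵ₁ : Cardinal.{0}) ≤ μ) {W : Type} (hW : #W ≤ 2 ^ μ) {Co : Type} [Nonempty Co]
    (hC : #Co ≤ μ) :
    ∃ (Θ : Type) (_ : Nonempty Θ) (ev : Θ → W → Co), #Θ ≤ μ ∧
      ∀ (D : Set W) (φ : W → Co), #D ≤ ℵ₁ → ∃ t, ∀ y ∈ D, ev t y = φ y := by
  have hal : (ℵ₀ : Cardinal.{0}) ≤ ℵ₁ := aleph0_le_aleph 1
  have hinf : ℵ₀ ≤ μ := (hal.trans (cantor _).le).trans h2
  let I : Type := (ℵ₁ : Cardinal.{0}).out
  have hI : #I = ℵ₁ := mk_out _
  let M : Type := μ.out
  have hM : #M = μ := mk_out _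
  have hIne : Nonempty I := by
    rw [← mk_ne_zero_iff, hI]
    exact (lt_of_lt_of_le aleph0_pos hal).ne'
  have hMne : Nonempty M := by
    rw [← mk_ne_zero_iff, hM]
    exact (lt_of_lt_of_le aleph0_pos hinf).ne'
  have hb : Nonempty (W ↪ Set M) := by
    rw [← Cardinal.le_def, mk_set, hM]
    exact hW
  obtain ⟨b⟩ := hb
  obtain ⟨m, hm⟩ := A5x.exists_sep b.injective
  refine ⟨(I → M) × (I → Set I) × (I → Co), inferInstance, A5x.evf b, ?_, ?_⟩
  · -- the cardinality
    have e1 : #((I → M) × (I → Set I) × (I → Co)) =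
        μ ^ (ℵ₁ : Cardinal.{0}) * ((2 ^ (ℵ₁ : Cardinal.{0})) ^ (ℵ₁ : Cardinal.{0}) *
          #Co ^ (ℵ₁ : Cardinal.{0})) := by
      rw [mk_prod, mk_prod]
      simp only [lift_id, ← power_def, mk_set, hI, hM]
    have e2 : (2 ^ (ℵ₁ : Cardinal.{0})) ^ (ℵ₁ : Cardinal.{0}) ≤ μ := by
      calc (2 ^ (ℵ₁ : Cardinal.{0})) ^ (ℵ₁ : Cardinal.{0}) ≤ μ ^ (ℵ₁ : Cardinal.{0}) :=
            power_le_power_right h2
        _ = μ := hμ
    have e3 : #Co ^ (ℵ₁ : Cardinal.{0}) ≤ μ := by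
      calc #Co ^ (ℵ₁ : Cardinal.{0}) ≤ μ ^ (ℵ₁ : Cardinal.{0}) := power_le_power_right hC
        _ = μ := hμ
    rw [e1, hμ]
    calc μ * ((2 ^ (ℵ₁ : Cardinal.{0})) ^ (ℵ₁ : Cardinal.{0}) * #Co ^ (ℵ₁ : Cardinal.{0})) ≤
          μ * (μ * μ) := mul_le_mul' le_rfl (mul_le_mul' e2 e3)
      _ = μ := by rw [mul_eq_self hinf, mul_eq_self hinf]
  · intro D φ hD
    rcases D.eq_empty_or_nonempty with hE | hN
    · refine ⟨Classical.arbitrary _, ?_⟩
      intro y hy
      rw [hE] at hy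
      exact absurd hy (notMem_empty y)
    · have hDne : Nonempty D := hN.to_subtype
      have hs1 : ∃ d : I → D, Function.Surjective d := by
        have : #D ≤ #I := by rw [hI]; exact hD
        obtain ⟨g⟩ := this
        exact ⟨Function.invFun g, Function.invFun_surjective g.injective⟩
      have hs2 : ∃ a : I → D × D, Function.Surjective a := by
        have : #(D × D) ≤ #I := by
          rw [hI, mk_prod, lift_id]
          calc #D * #D ≤ ℵ₁ * ℵ₁ := mul_le_mul' hD hD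
            _ = ℵ₁ := mul_eq_self hal
        obtain ⟨g⟩ := this
        exact ⟨Function.invFun g, Function.invFun_surjective g.injective⟩
      obtain ⟨d, hd⟩ := hs1
      obtain ⟨a, ha⟩ := hs2
      refine ⟨(fun i => m ((a i).1, (a i).2),
        fun n => (fun i => m ((a i).1, (a i).2)) ⁻¹' (b (d n)), fun n => φ (d n)), ?_⟩
      intro y hy
      apply A5x.evf_spec
      · obtain ⟨n, hn⟩ := hd ⟨y, hy⟩
        refine ⟨n, ?_⟩
        change (fun i => m (((a i).1 : W), ((a i).2 : W))) ⁻¹' (b (d n)) =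
          (fun i => m (((a i).1 : W), ((a i).2 : W))) ⁻¹' (b y)
        rw [hn]
      · intro n hn
        change (fun i => m (((a i).1 : W), ((a i).2 : W))) ⁻¹' (b (d n)) =
          (fun i => m (((a i).1 : W), ((a i).2 : W))) ⁻¹' (b y) at hn
        have hdy : (d n : W) = y := by
          apply hm
          obtain ⟨i, hi⟩ := ha (d n, ⟨y, hy⟩)
          have h3 := Set.ext_iff.1 hn i
          rw [mem_preimage, mem_preimage, hi] at h3
          exact h3
        change φ (d n) = φ y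
        rw [hdy]

end Pool.Agent.H732.CP
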