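import Pool.Agent.H732.CP.A1
import Pool.Agent.H732.CP.A4
import Pool.Agent.H732.CP.A5

/-!
TASK A6.  The strong colouring with evaluation.

`W` has order type `κ = succ (succ nu)`, `μ = succ nu`.  `thmB` (for `μ`, `#W = succ μ ≤ 2^μ`) gives
`Θ, ev`; `thmA` (for `ν = nu`) gives `c : W → W → Θ`.  Put `c' x y := ev (c x y) y`.  Suppose `SCol`
fails for `A, T`: for every `δ` there are `β δ ∈ T`, `δ ≤ β δ`, `φ δ` such that no `α ∈ T`, `α < δ`
works.  Let `t δ ∈ Θ` with `ev (t δ) y = φ δ y` for `y ∈ A (β δ)`.  `Unb.pigeon` (A2): `t δ = t` for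
all `δ` in an unbounded set `T'`.  Apply the property of `c` to the families
`A' δ := insert (β δ) (A (β δ))`, `B' δ := A (β δ)`, `T'` and `t` (if `δ ∉ T'` nothing is needed;
sizes: `insert` of a set of size `≤ ℵ₁`): there are `g < d` in `T'` with `x < d` and `c x y = t`
for all `x ∈ A' g`, `y ∈ A (β d)`.  Then `α := β g ∈ T`, `β g < d ≤ β d`, and for `x ∈ A (β g)`:
`x < d ≤ β d` and `c' x y = ev t y = φ d y` for `y ∈ A (β d)`: contradiction.
-/

set_option autoImplicit false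

namespace Pool.Agent.H732.CP

open Set Cardinal Order

theorem thmC {W : Type} [LinearOrder W] [WellFoundedLT W] (hW : Reg W (succ (succ nu)))
    {Co : Type} [Nonempty Co] (hC : #Co ≤ succ nu) : ∃ c : W → W → Co, SCol c := by
  have h2 : 2 ^ (ℵ₁ : Cardinal.{0}) ≤ succ nu := two_pow_lt_nu.le.trans (lt_succ nu).le
  have hW2 : #W ≤ 2 ^ (succ nu) := by
    rw [hW.card]
    exact succ_le_of_lt (cantor _)
  obtain ⟨Θ, hne, ev, hΘ, hev⟩ := thmB mu_pow h2 hW2 hC
  obtain ⟨c, hc⟩ := thmA nu_reg aleph_one_lt_nu lt_mu_pow hW hΘ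
  refine ⟨fun x y => ev (c x y) y, ?_⟩
  intro A T hA hT hTA
  by_contra hcon
  push Not at hcon
  choose β hβT hβδ φ hφ using hcon
  have ht : ∀ δ, ∃ t, ∀ y ∈ A (β δ), ev t y = φ δ y := fun δ => hev (A (β δ)) (φ δ) (hA (β δ))
  choose t ht using ht
  have hU : Unb (Set.univ : Set W) := by
    intro a
    obtain ⟨d, _, hd⟩ := hT a
    exact ⟨d, trivial, hd⟩
  obtain ⟨t₀, hT'⟩ := Unb.pigeon hW hU (lt_of_le_of_lt hΘ (lt_succ _)) t
  have hins : ∀ d, #(insert (β d) (A (β d)) : Set W) ≤ ℵ₁ := by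
    intro d
    refine mk_insert_le.trans ?_
    have h1 : (ℵ₁ : Cardinal.{0}) + 1 = ℵ₁ := add_one_eq (aleph0_le_aleph 1)
    rw [← h1]
    gcongr
    exact hA (β d)
  obtain ⟨g, hg, d, hd, hgd, hx⟩ := hc (fun d => insert (β d) (A (β d))) (fun d => A (β d)) _
    hins (fun d => hA (β d)) hT' (by
      intro d _
      refine ⟨?_, ?_⟩
      · intro x hx
        rcases Set.mem_insert_iff.mp hx with rfl | hx
        · exact hβδ d
        · exact (hβδ d).trans (hTA (β d) (hβT d) x hx)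
      · intro x hx
        exact (hβδ d).trans (hTA (β d) (hβT d) x hx)) t₀
  have h3 : β g < d := (hx (β g) (Set.mem_insert _ _)).1
  obtain ⟨x, hxA, hne'⟩ := hφ d (β g) (hβT g) h3
  have h4 := hx x (Set.mem_insert_of_mem _ hxA)
  obtain ⟨y, hy, hyne⟩ := hne' (lt_of_lt_of_le h4.1 (hβδ d))
  apply hyne
  have h5 : c x y = t₀ := h4.2 y hy
  have h6 : t d = t₀ := hd.2
  show ev (c x y) y = φ d y
  rw [h5, ← h6]
  exact ht d y hy

end Pool.Agent.H732.CP
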