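import Pool.Agent.H732.CP.A1
import Pool.Agent.H732.CP.A2

/-!
TASK A7.  Existence of the codes and of the names.

`code`: for every `y : W` the number of pairs `(i, h)` with `h : N → ℕ → N → Option (Iio y)` is at
most `ℵ₁ * (#(Iio y) + 1)^ℵ₁ ≤ succ nu = #Co` (`lt_ka_pow`), so there is an injection `J y` of
`N × (N → ℕ → N → Option (Iio y))` into `Co`; `code i s y := J y (i, restriction of s)` where the
restriction replaces `some x` with `x ≥ y` by `none`.  If all values of two sequences are `< y` they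
can be recovered from the restrictions.

`pi`: `P := N × Sq N W × ℕ` has size at most `ℵ₁ * (κ^ℵ₁) * ℵ₀ = κ = #W` (`ka_pow`); take an injection
`r : P → W` and a bijection `q : W ≃ W × W`.  For `p = (i, s, j)` the set of values of `s` has size
`≤ ℵ₁ < κ`, so it has a bound (`Reg.bdd`) `b`; the set `{w | (q w).1 = r p}` has size `κ`, so it has an
element `> b` (`Reg.iic`); call it `pi i s j`.  It is injective since `(q (pi p)).1 = r p`.
-/

set_option autoImplicit false

namespace Pool.Agent.H732.CP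

open Set Cardinal Order

namespace A7x

theorem aleph1_le_nu : (ℵ₁ : Cardinal.{0}) ≤ nu := aleph_one_lt_nu.le

theorem aleph0_le_nu : (ℵ₀ : Cardinal.{0}) ≤ nu := (aleph0_le_aleph 1).trans aleph1_le_nu

theorem idx_le {N : Type} (hN : #N ≤ ℵ₁) : #(N × ℕ × N) ≤ ℵ₁ := by
  have h0 : (ℵ₀ : Cardinal.{0}) ≤ ℵ₁ := aleph0_le_aleph 1
  have h1 : #(N × ℕ × N) = #N * (ℵ₀ * #N) := by
    rw [mk_prod, mk_prod]
    simp
  rw [h1]
  calc #N * (ℵ₀ * #N) ≤ ℵ₁ * (ℵ₁ * ℵ₁) := mul_le_mul' hN (mul_le_mul' h0 hN)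
    _ = ℵ₁ := by rw [mul_eq_self h0, mul_eq_self h0]

theorem sq_le {N X : Type} (hN : #N ≤ ℵ₁) :
    #(N → ℕ → N → Option X) ≤ (#(Option X)) ^ (ℵ₁ : Cardinal.{0}) := by
  have h1 : #(N → ℕ → N → Option X) = #(N × ℕ × N → Option X) :=
    mk_congr ((Equiv.refl N).arrowCongr (Equiv.curry ℕ N (Option X)).symm |>.trans
      (Equiv.curry N (ℕ × N) (Option X)).symm)
  rw [h1, ← power_def]
  exact power_le_power_left (mk_ne_zero _) (idx_le hN)

/-- the restriction of a sequence to the values below `y` -/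
noncomputable def rst {W N : Type} [LinearOrder W] (s : Sq N W) (y : W) :
    N → ℕ → N → Option (Iio y) :=
  fun k j m => (s k j m).bind fun x => if h : x < y then some ⟨x, h⟩ else none

theorem rst_map {W N : Type} [LinearOrder W] (s : Sq N W) (y : W)
    (hs : ∀ k j, ∀ x ∈ V s k j, x < y) (k : N) (j : ℕ) (m : N) :
    (rst s y k j m).map Subtype.val = s k j m := by
  unfold rst
  cases h : s k j m with
  | none => rfl
  | some x =>
    have hx : x < y := hs k j x ⟨m, h⟩
    simp [hx]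

theorem rst_inj {W N : Type} [LinearOrder W] {s s' : Sq N W} {y : W}
    (hs : ∀ k j, ∀ x ∈ V s k j, x < y) (hs' : ∀ k j, ∀ x ∈ V s' k j, x < y)
    (h : rst s y = rst s' y) : s = s' := by
  funext k j m
  rw [← rst_map s y hs, ← rst_map s' y hs', h]

end A7x

theorem code_ex {W N Co : Type} [LinearOrder W] [LinearOrder N] (hW : Reg W (succ (succ nu)))
    (hN : #N ≤ ℵ₁) (hC : #Co = succ nu) :
    ∃ code : N → Sq N W → W → Co, ∀ i i' s s' y, (∀ k j, ∀ x ∈ V (tr s i) k j, x < y) →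
      (∀ k j, ∀ x ∈ V (tr s' i') k j, x < y) → code i (tr s i) y = code i' (tr s' i') y →
      i = i' ∧ tr s i = tr s' i' := by
  have h0 : ℵ₀ ≤ succ nu := A7x.aleph0_le_nu.trans (le_succ _)
  have key : ∀ y : W, #(N × (N → ℕ → N → Option (Iio y))) ≤ #Co := by
    intro y
    have h1 : #(Option (Iio y)) < succ (succ nu) := by
      rw [mk_option]
      have h2 : #(Iio y) ≤ succ nu := lt_succ_iff.mp (hW.iio y)
      refine lt_succ_iff.mpr ?_
      calc #(Iio y) + 1 ≤ succ nu + succ nu :=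
            add_le_add h2 (one_le_aleph0.trans h0)
        _ = succ nu := add_eq_self h0
    have h2 : #(N → ℕ → N → Option (Iio y)) ≤ succ nu :=
      (A7x.sq_le hN).trans (lt_succ_iff.mp (lt_ka_pow _ h1))
    rw [hC, mk_prod, lift_id, lift_id]
    calc #N * #(N → ℕ → N → Option (Iio y)) ≤ succ nu * succ nu :=
          mul_le_mul' (hN.trans (A7x.aleph1_le_nu.trans (le_succ _))) h2
      _ = succ nu := mul_eq_self h0
  have J : ∀ y : W, N × (N → ℕ → N → Option (Iio y)) ↪ Co := fun y =>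
    Classical.choice ((le_def _ _).mp (key y))
  refine ⟨fun i s y => J y (i, A7x.rst s y), ?_⟩
  intro i i' s s' y h1 h2 h3
  have h4 := (J y).injective h3
  rw [Prod.mk.injEq] at h4
  exact ⟨h4.1, A7x.rst_inj h1 h2 h4.2⟩

theorem pi_ex {W N : Type} [LinearOrder W] [LinearOrder N] (hW : Reg W (succ (succ nu)))
    (hN : #N ≤ ℵ₁) :
    ∃ pi : N → Sq N W → ℕ → W, (∀ i i' s s' j j', pi i s j = pi i' s' j' →
      i = i' ∧ s = s' ∧ j = j') ∧ ∀ i s j k j', ∀ x ∈ V s k j', x < pi i s j := by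
  have h0 : ℵ₀ ≤ succ (succ nu) := A7x.aleph0_le_nu.trans ((le_succ _).trans (le_succ _))
  have h1 : ℵ₁ < succ (succ nu) :=
    aleph_one_lt_nu.trans_le ((le_succ _).trans (le_succ _))
  have hWW : #(W × W) = #W := by
    rw [mk_prod, lift_id, hW.card, mul_eq_self h0]
  obtain ⟨q⟩ := Cardinal.eq.mp hWW.symm
  have hO : #(Option W) ≤ succ (succ nu) := by
    rw [mk_option, hW.card]
    calc succ (succ nu) + 1 ≤ succ (succ nu) + succ (succ nu) :=
          add_le_add le_rfl (one_le_aleph0.trans h0)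
      _ = succ (succ nu) := add_eq_self h0
  have hS : #(Sq N W) ≤ succ (succ nu) := by
    refine (A7x.sq_le hN).trans ?_
    calc #(Option W) ^ (ℵ₁ : Cardinal.{0}) ≤ (succ (succ nu)) ^ (ℵ₁ : Cardinal.{0}) :=
          power_le_power_right hO
      _ = succ (succ nu) := ka_pow
  have hP : #(N × Sq N W × ℕ) ≤ #W := by
    rw [hW.card, mk_prod, mk_prod]
    simp only [lift_id, mk_nat]
    calc #N * (#(Sq N W) * ℵ₀) ≤ succ (succ nu) * (succ (succ nu) * succ (succ nu)) :=
          mul_le_mul' (hN.trans h1.le) (mul_le_mul' hS h0)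
      _ = succ (succ nu) := by rw [mul_eq_self h0, mul_eq_self h0]
  obtain ⟨r⟩ := (le_def _ _).mp hP
  have key : ∀ p : N × Sq N W × ℕ, ∃ w : W, (q w).1 = r p ∧ ∀ k j', ∀ x ∈ V p.2.1 k j', x < w := by
    intro p
    have hv : #{x | ∃ k j', x ∈ V p.2.1 k j'} < succ (succ nu) := by
      refine lt_of_le_of_lt ?_ h1
      have h2 : {x | ∃ k j', x ∈ V p.2.1 k j'} ⊆
          some ⁻¹' (range fun t : N × ℕ × N => p.2.1 t.1 t.2.1 t.2.2) := by
        rintro x ⟨k, j', m, hm⟩
        exact ⟨(k, j', m), hm⟩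
      refine (mk_le_mk_of_subset h2).trans ?_
      refine (mk_preimage_of_injective _ _ (Option.some_injective W)).trans ?_
      exact mk_range_le.trans (A7x.idx_le hN)
    obtain ⟨b, hb⟩ := hW.bdd hv
    have h3 : ∃ w : W, (q w).1 = r p ∧ b < w := by
      by_contra hcon
      push Not at hcon
      have h4 : #W ≤ #(Iic b) := by
        refine (le_def _ _).mpr ⟨⟨fun w => ⟨q.symm (r p, w), hcon _ (by simp)⟩, ?_⟩⟩
        intro w w' hw
        have h5 := congrArg (fun t : Iic b => (q t.1).2) hw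
        simpa using h5
      rw [hW.card] at h4
      exact absurd (hW.iic b) (not_lt.mpr h4)
    obtain ⟨w, hw1, hw2⟩ := h3
    exact ⟨w, hw1, fun k j' x hx => (hb x ⟨k, j', hx⟩).trans hw2⟩
  choose g hg1 hg2 using key
  refine ⟨fun i s j => g (i, s, j), ?_, ?_⟩
  · intro i i' s s' j j' h
    have h2 : r (i, s, j) = r (i', s', j') := by
      rw [← hg1, ← hg1]
      exact congrArg (fun w => (q w).1) h
    have h3 := r.injective h2
    rw [Prod.mk.injEq, Prod.mk.injEq] at h3
    exact ⟨h3.1, h3.2.1, h3.2.2⟩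
  · intro i s j k j' x hx
    exact hg2 (i, s, j) k j' x hx

end Pool.Agent.H732.CP
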