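import Pool.Agent.H732.CP.Defs

/-!
TASK B1.  Existence of the recursively defined family `U`.

Put `step z U' := Body D U' z` and define `U z := step z (fun y => if y < z then U y else ∅)` by
well-founded recursion (`WellFounded.fix wellFounded_lt`, `WellFounded.fix_eq`).  It remains to see
that for `z = D.pi l s j` the conditions `Legit D U' l s j` for `U' = U` truncated below `z` and for
`U` itself are equivalent.  Only the field `form` mentions `U`; there `a ∈ V s k i`, so `a < z` by
`D.pi_gt`, and `f < a` for `f ∈ F`, so `U' a = U a`, `U' f = U f`.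
-/

set_option autoImplicit false

namespace Pool.Agent.H732.CP

open Set Cardinal Order

theorem B1x_legit {N W Co : Type} [LinearOrder N] [LinearOrder W] {D : Dat N W Co}
    {U U' : W → Set W} {l : N} {s : Sq N W} {j : ℕ} (h : ∀ y < D.pi l s j, U y = U' y)
    (hL : Legit D U l s j) : Legit D U' l s j := by
  refine ⟨hL.lim, hL.tr_eq, ?_, hL.good, hL.disj, hL.gap, hL.ne⟩
  intro k hk i
  rcases hL.form k hk i with h1 | ⟨a, ha, F, hF, hV⟩
  · exact Or.inl h1
  · refine Or.inr ⟨a, ha, F, hF, ?_⟩
    have ha' : a < D.pi l s j := D.pi_gt l s j k i a ha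
    rw [hV, h a ha']
    congr 1
    ext x
    constructor
    · rintro ⟨f, hf, hx⟩
      rw [h f ((hF f hf).trans ha')] at hx
      exact ⟨f, hf, hx⟩
    · rintro ⟨f, hf, hx⟩
      rw [← h f ((hF f hf).trans ha')] at hx
      exact ⟨f, hf, hx⟩

theorem B1x_body {N W Co : Type} [LinearOrder N] [LinearOrder W] (D : Dat N W Co)
    {U U' : W → Set W} {z : W} (h : ∀ y < z, U y = U' y) : Body D U z ⊆ Body D U' z := by
  rintro x (hx | ⟨l, s, j, hz, hL, hk⟩)
  · exact Or.inl hx
  · refine Or.inr ⟨l, s, j, hz, ?_, hk⟩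
    apply B1x_legit _ hL
    rw [hz]
    exact h

theorem exU {N W Co : Type} [LinearOrder N] [LinearOrder W] [WellFoundedLT W] (D : Dat N W Co) :
    ∃ U : W → Set W, ∀ z, U z = Body D U z := by
  classical
  obtain ⟨G, hG⟩ : ∃ G : (z : W) → ((y : W) → y < z → Set W) → Set W,
      ∀ z r, G z r = Body D (fun y => if h : y < z then r y h else ∅) z := ⟨_, fun z r => rfl⟩
  have hwf : WellFounded ((· < ·) : W → W → Prop) := wellFounded_lt
  refine ⟨hwf.fix G, fun z => ?_⟩
  have h1 : hwf.fix G z = Body D (fun y => if h : y < z then hwf.fix G y else ∅) z := by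
    rw [hwf.fix_eq, hG]
  have h2 : ∀ y < z, (fun y => if h : y < z then hwf.fix G y else ∅) y = hwf.fix G y := by
    intro y hy
    show (if h : y < z then hwf.fix G y else ∅) = hwf.fix G y
    rw [dif_pos hy]
  rw [h1]
  exact Set.Subset.antisymm (B1x_body D h2) (B1x_body D fun y hy => (h2 y hy).symm)

end Pool.Agent.H732.CP
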