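import Pool.Agent.H732.CP.A1
import Pool.Agent.H732.CP.A2

/-!
TASK B10.  The Delta-system.

Start with the stationary set `S0 := {x | Cf (succ ℵ₁) x}` (`clo`, `ℵ₂` is regular and `< succ (succ nu)`).
For `δ`, let `L δ : List W` be the increasing list of the elements `≥ δ` of `G δ` (`Finset.sort`), it is
nonempty since `δ ∈ G δ` and `n := length`; `z δ i := (L δ).getD i δ`.  Pigeonhole (`St.pigeon`) with
fewer than `succ (succ nu)` classes (`real_lt_nu`): the length `n`, the list of reals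
`(L δ).map (fun x => f δ (some x))`, the real `f δ none`.  The set `G δ ∩ Iio δ` is finite: `St.small`
(with `A δ := G δ`) makes `{y | y < δ ∧ y ∈ G δ}` a constant set `r'`, finite, `r := r'.toFinset`;
with `r = {x | x ∈ l}` for the sorted list `l`, pigeonhole on the list of reals `l.map (f δ ∘ some)`.
Finally `St.small` for `A δ := {x | ∃ i < n, x ∈ U (z δ i)}` (a finite union of sets of size `≤ ℵ₁`)
gives `R`.  `St` implies `Unb`.
-/

set_option autoImplicit false

namespace Pool.Agent.H732.CP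

open Set Cardinal Order

namespace B10x

theorem nu_lt : nu < succ (succ nu) := (lt_succ nu).trans (lt_succ _)

theorem cont_lt : #ℝ < succ (succ nu) := real_lt_nu.trans nu_lt

open Classical in
/-- the increasing enumeration of the elements `≥ δ` of `G δ` -/
noncomputable def zz {W : Type} [LinearOrder W] (G : W → Finset W) (δ : W) (i : ℕ) : W :=
  if h : i < ((G δ).filter (fun x => δ ≤ x)).card then
    ((G δ).filter (fun x => δ ≤ x)).orderEmbOfFin rfl ⟨i, h⟩ else δ

theorem zz_ge {W : Type} [LinearOrder W] (G : W → Finset W) (δ : W) (i : ℕ) :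
    δ ≤ zz G δ i := by
  unfold zz
  split_ifs with h
  · have := Finset.orderEmbOfFin_mem ((G δ).filter (fun x => δ ≤ x)) rfl ⟨i, h⟩
    rw [Finset.mem_filter] at this
    exact this.2
  · exact le_rfl

theorem zz_lt {W : Type} [LinearOrder W] (G : W → Finset W) (δ : W) (i i' : ℕ) (h : i < i')
    (h' : i' < ((G δ).filter (fun x => δ ≤ x)).card) : zz G δ i < zz G δ i' := by
  unfold zz
  rw [dif_pos (h.trans h'), dif_pos h']
  exact (((G δ).filter (fun x => δ ≤ x)).orderEmbOfFin rfl).strictMono h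

theorem zz_surj {W : Type} [LinearOrder W] (G : W → Finset W) (δ x : W) (hx : x ∈ G δ)
    (hδ : δ ≤ x) : ∃ i < ((G δ).filter (fun x => δ ≤ x)).card, x = zz G δ i := by
  have h1 : x ∈ Set.range (((G δ).filter (fun x => δ ≤ x)).orderEmbOfFin rfl) := by
    rw [Finset.range_orderEmbOfFin]
    simp [hx, hδ]
  obtain ⟨i, hi⟩ := h1
  refine ⟨i, i.2, ?_⟩
  unfold zz
  rw [dif_pos i.2]
  exact hi.symm

end B10x

open B10x in
theorem delta {W : Type} [LinearOrder W] [WellFoundedLT W] (hW : Reg W (succ (succ nu)))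
    {U : W → Set W} (hs : ∀ x, #(U x) ≤ ℵ₁) (G : W → Finset W) (hG : ∀ w, w ∈ G w)
    (f : W → Option W → ℝ) :
    ∃ (S : Set W) (n : ℕ) (z : W → ℕ → W) (r : Finset W) (R : Set W) (q : ℕ → ℝ)
      (c : Option W → ℝ), Unb S ∧ 0 < n ∧ ∀ δ ∈ S,
        δ ≤ z δ 0 ∧ (∀ i i', i < i' → i' < n → z δ i < z δ i') ∧
        {x | x < δ ∧ ∃ i < n, x ∈ U (z δ i)} = R ∧
        (∀ x ∈ G δ, x ∈ r ∨ ∃ i < n, x = z δ i) ∧ (∀ i < n, f δ (some (z δ i)) = q i) ∧
        f δ none = c none ∧ ∀ x ∈ r, f δ (some x) = c (some x) := by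
  classical
  -- a nonempty witness
  have hne : ∀ {S : Set W}, St S → ∃ x, x ∈ S := by
    intro S hS
    have hW1 : Nonempty W := by
      rw [← Cardinal.mk_ne_zero_iff, hW.card]
      exact (lt_of_le_of_lt (zero_le) nu_lt).ne'
    obtain ⟨a⟩ := hW1
    obtain ⟨x, hx, -⟩ := hS id a
    exact ⟨x, hx⟩
  have hreg2 : (succ (ℵ₁ : Cardinal.{0})).IsRegular := isRegular_succ (aleph0_le_aleph 1)
  have h12 : succ (ℵ₁ : Cardinal.{0}) < succ (succ nu) :=
    (Order.succ_le_of_lt aleph_one_lt_nu).trans_lt nu_lt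
  have hS0 : St {x : W | Cf (succ (ℵ₁ : Cardinal.{0})) x} := clo hW hreg2 h12
  -- first pigeonhole
  let lab : W → ℕ × (ℕ → ℝ) × ℝ := fun δ =>
    (((G δ).filter (fun x => δ ≤ x)).card, (fun i => f δ (some (zz G δ i))), f δ none)
  have hcard : #(Set.univ : Set (ℕ × (ℕ → ℝ) × ℝ)) < succ (succ nu) := by
    rw [Cardinal.mk_univ]
    have h1 : #(ℕ × (ℕ → ℝ) × ℝ) = #ℝ := by
      simp [Cardinal.mk_real]
    rw [h1]
    exact cont_lt
  obtain ⟨⟨n, q, c0⟩, hS1⟩ := St.pigeon hW hS0 hcard lab (fun x _ => Set.mem_univ _)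
  -- the part below
  obtain ⟨R1, hS2⟩ := St.small hW (lt_succ (ℵ₁ : Cardinal.{0})) lt_ka_pow hS1
    (fun x hx => hx.1) (fun δ => (G δ : Set W)) (fun x => by
      refine le_trans ?_ (aleph0_le_aleph 1)
      exact (Cardinal.lt_aleph0_iff_set_finite.2 (Finset.finite_toSet _)).le)
  obtain ⟨x0, hx0⟩ := hne hS2
  have hfin : R1.Finite := by
    rw [← hx0.2]
    exact (Finset.finite_toSet (G x0)).subset (fun y hy => hy.2)
  -- second pigeonhole
  have hcard2 : #(Set.univ : Set (hfin.toFinset → ℝ)) < succ (succ nu) := by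
    rw [Cardinal.mk_univ]
    have h1 : #(hfin.toFinset → ℝ) ≤ #ℝ := by
      have h2 : #(hfin.toFinset → ℝ) = #ℝ ^ #(hfin.toFinset) := by
        simp
      rw [h2]
      calc #ℝ ^ #(hfin.toFinset) ≤ #ℝ ^ ℵ₀ := by
            apply Cardinal.power_le_power_left
            · rw [Cardinal.mk_real]
              exact Cardinal.continuum_ne_zero
            · exact (Cardinal.lt_aleph0_of_finite _).le
        _ = #ℝ := by simp [Cardinal.mk_real]
    exact h1.trans_lt cont_lt
  obtain ⟨c1, hS3⟩ := St.pigeon hW hS2 hcard2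
    (fun x => fun y : hfin.toFinset => f x (some (y : W))) (fun x _ => Set.mem_univ _)
  -- the sets `U`
  obtain ⟨R, hS4⟩ := St.small hW (lt_succ (ℵ₁ : Cardinal.{0})) lt_ka_pow hS3
    (fun x hx => hx.1.1.1) (fun δ => {x | ∃ i < n, x ∈ U (zz G δ i)}) (fun x => by
      have h1 : {y | ∃ i < n, y ∈ U (zz G x i)} ⊆ ⋃ i : ℕ, U (zz G x i) := by
        rintro y ⟨i, -, hi⟩
        exact Set.mem_iUnion.2 ⟨i, hi⟩
      refine (Cardinal.mk_le_mk_of_subset h1).trans ?_
      refine (Cardinal.mk_iUnion_le _).trans ?_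
      have h2 : (⨆ i : ℕ, #(U (zz G x i))) ≤ ℵ₁ := ciSup_le' fun i => hs _
      calc #ℕ * (⨆ i : ℕ, #(U (zz G x i))) ≤ ℵ₁ * ℵ₁ := by
            gcongr
            rw [Cardinal.mk_nat]
            exact aleph0_le_aleph 1
        _ = ℵ₁ := Cardinal.mul_eq_self (aleph0_le_aleph 1))
  refine ⟨_, n, zz G, hfin.toFinset, R, q,
    fun o => match o with
      | none => c0
      | some x => if h : x ∈ hfin.toFinset then c1 ⟨x, h⟩ else 0, St.unb hS4, ?_, ?_⟩
  · obtain ⟨x, hx⟩ := hne hS4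
    have h1 : ((G x).filter (fun y => x ≤ y)).card = n := congrArg Prod.fst hx.1.1.1.2
    rw [← h1, Finset.card_pos]
    exact ⟨x, by simp [hG x]⟩
  · intro δ hδ
    have hlab : lab δ = (n, q, c0) := hδ.1.1.1.2
    have hn : ((G δ).filter (fun y => δ ≤ y)).card = n := congrArg Prod.fst hlab
    have hq : (fun i => f δ (some (zz G δ i))) = q := congrArg (fun t => t.2.1) hlab
    have hc0 : f δ none = c0 := congrArg (fun t => t.2.2) hlab
    have hR1 : {y | y < δ ∧ y ∈ (G δ : Set W)} = R1 := hδ.1.1.2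
    have hc1 : (fun y : hfin.toFinset => f δ (some (y : W))) = c1 := hδ.1.2
    refine ⟨zz_ge G δ 0, ?_, hδ.2, ?_, ?_, hc0, ?_⟩
    · intro i i' h h'
      exact zz_lt G δ i i' h (by rw [hn]; exact h')
    · intro x hx
      rcases lt_or_ge x δ with h | h
      · left
        rw [Set.Finite.mem_toFinset, ← hR1]
        exact ⟨h, hx⟩
      · right
        obtain ⟨i, hi, hi'⟩ := zz_surj G δ x hx h
        exact ⟨i, by rw [← hn]; exact hi, hi'⟩
    · intro i _
      exact congrFun hq i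
    · intro x hx
      show f δ (some x) = if h : x ∈ hfin.toFinset then c1 ⟨x, h⟩ else 0
      rw [dif_pos hx, ← hc1]

end Pool.Agent.H732.CP
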