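import Pool.Agent.H732.CP.Defs

/-!
TASK B9.  What a pi-base of `C_p` gives.

For every `B ∈ 𝓑` choose `fB ∈ B` and (openness in the topology induced from the product) a finite
set `FB ⊆ Option W` such that every `h` with `|h u - fB u| < ε` for `u ∈ FB` is in `B`; we only keep:
every `h` with `h = fB` on `FB` is in `B`.  `GB := {w | some w ∈ FB}`.
For `w : W` the set `O w := {f | 0 < f (some w)}` is open and nonempty, so there is `B w ∈ 𝓑`,
`B w ⊆ O w`.  Then `w ∈ GB` for `B = B w`: otherwise (Urysohn, `Option W` compact Hausdorff) there is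
`h` with `h = fB` on `FB` and `h (some w) < 0`, so `h ∈ B w ⊆ O w`, contradiction.
-/

set_option autoImplicit false

namespace Pool.Agent.H732.CP

open Set

theorem B9x_step {W : Type} [TopologicalSpace (Option W)] (B : Set C(Option W, ℝ))
    (h1 : @IsOpen C(Option W, ℝ)
      (TopologicalSpace.induced (fun f : C(Option W, ℝ) => (f : Option W → ℝ)) inferInstance) B
        ∧ B.Nonempty) :
    ∃ (f : C(Option W, ℝ)) (G : Finset W), ∀ h : C(Option W, ℝ), h none = f none →
        (∀ x ∈ G, h (some x) = f (some x)) → h ∈ B := by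
  obtain ⟨ho, f, hf⟩ := h1
  obtain ⟨t, ht, htB⟩ := isOpen_induced_iff.1 ho
  have hft : (f : Option W → ℝ) ∈ t := by
    have : f ∈ (fun f : C(Option W, ℝ) => (f : Option W → ℝ)) ⁻¹' t := by rw [htB]; exact hf
    exact this
  obtain ⟨I, u, hI, hu⟩ := isOpen_pi_iff.1 ht _ hft
  refine ⟨f, Finset.eraseNone I, fun h hn hs => ?_⟩
  rw [← htB]
  change (h : Option W → ℝ) ∈ t
  apply hu
  intro a ha
  have ha' : a ∈ I := ha
  cases a with
  | none =>
    rw [hn]
    exact (hI none ha').2
  | some x =>
    rw [hs x (Finset.mem_eraseNone.2 ha')]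
    exact (hI (some x) ha').2

theorem base_data {W : Type} [TopologicalSpace (Option W)] [T2Space (Option W)]
    [CompactSpace (Option W)] (𝓑 : Set (Set C(Option W, ℝ)))
    (h1 : ∀ B ∈ 𝓑, @IsOpen C(Option W, ℝ)
      (TopologicalSpace.induced (fun f : C(Option W, ℝ) => (f : Option W → ℝ)) inferInstance) B
        ∧ B.Nonempty)
    (h2 : ∀ O : Set C(Option W, ℝ), @IsOpen C(Option W, ℝ)
      (TopologicalSpace.induced (fun f : C(Option W, ℝ) => (f : Option W → ℝ)) inferInstance) O →
        O.Nonempty → ∃ B ∈ 𝓑, B ⊆ O) :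
    ∃ (B : W → Set C(Option W, ℝ)) (f : W → C(Option W, ℝ)) (G : W → Finset W),
      (∀ w, B w ∈ 𝓑) ∧ (∀ w, ∀ h : C(Option W, ℝ), h none = f w none →
        (∀ x ∈ G w, h (some x) = f w (some x)) → h ∈ B w) ∧ (∀ w, w ∈ G w) ∧
      ∀ w w', B w = B w' → G w = G w' := by
  classical
  have s1 : ∀ B : Set C(Option W, ℝ), ∃ (f : C(Option W, ℝ)) (G : Finset W), B ∈ 𝓑 →
      ∀ h : C(Option W, ℝ), h none = f none →
        (∀ x ∈ G, h (some x) = f (some x)) → h ∈ B := by
    intro B
    by_cases hB : B ∈ 𝓑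
    · obtain ⟨f, G, h⟩ := B9x_step B (h1 B hB)
      exact ⟨f, G, fun _ => h⟩
    · exact ⟨0, ∅, fun h => absurd h hB⟩
  choose f G hG using s1
  have s2 : ∀ w : W, ∃ B ∈ 𝓑, B ⊆ {g : C(Option W, ℝ) | 0 < g (some w)} := by
    intro w
    refine h2 _ ?_ ⟨1, ?_⟩
    · refine isOpen_induced_iff.2 ⟨{g : Option W → ℝ | 0 < g (some w)}, ?_, rfl⟩
      exact isOpen_lt continuous_const (continuous_apply _)
    · simp
  choose B hB1 hB2 using s2
  refine ⟨B, fun w => f (B w), fun w => G (B w), hB1, fun w => hG (B w) (hB1 w), ?_, ?_⟩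
  · intro w
    by_contra hw
    have hd : Disjoint ({some w} : Set (Option W)) (insert none (some '' (G (B w) : Set W))) := by
      rw [Set.disjoint_singleton_left]
      rintro (h | ⟨x, hx, hxw⟩)
      · exact absurd h (by simp)
      · rw [Option.some.injEq] at hxw
        rw [hxw] at hx
        exact hw hx
    have hc : IsClosed (insert none (some '' (G (B w) : Set W))) :=
      (((G (B w)).finite_toSet.image some).insert none).isClosed
    obtain ⟨g, hg0, hg1, _⟩ := exists_continuous_zero_one_of_isClosed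
      (isClosed_singleton (x := some w)) hc hd
    have hmem : g * (f (B w) + 1) - 1 ∈ B w := by
      apply hG (B w) (hB1 w)
      · have := hg1 (x := none) (Set.mem_insert _ _)
        simp only [ContinuousMap.coe_sub, ContinuousMap.coe_mul, ContinuousMap.coe_add,
          ContinuousMap.coe_one, Pi.sub_apply, Pi.mul_apply, Pi.add_apply, Pi.one_apply] at this ⊢
        rw [this]; ring
      · intro x hx
        have := hg1 (x := some x) (Set.mem_insert_of_mem _ ⟨x, hx, rfl⟩)
        simp only [ContinuousMap.coe_sub, ContinuousMap.coe_mul, ContinuousMap.coe_add,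
          ContinuousMap.coe_one, Pi.sub_apply, Pi.mul_apply, Pi.add_apply, Pi.one_apply] at this ⊢
        rw [this]; ring
    have hpos := hB2 w hmem
    have h0 := hg0 (x := some w) (Set.mem_singleton _)
    simp only [Set.mem_ofPred_eq, ContinuousMap.coe_sub, ContinuousMap.coe_mul,
      ContinuousMap.coe_add, ContinuousMap.coe_one, Pi.sub_apply, Pi.mul_apply, Pi.add_apply,
      Pi.one_apply, Pi.zero_apply] at hpos h0
    rw [h0] at hpos
    linarith
  · intro w w' hww
    show G (B w) = G (B w')
    rw [hww]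

end Pool.Agent.H732.CP
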