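import Pool.Agent.H732.CP.B8
import Pool.Agent.H732.CP.B9
import Pool.Agent.H732.CP.B10

/-!
TASK B11.  No point-countable pi-base.

Suppose `𝓑` is one.  `base_data` gives `B, f, G`; `delta` gives `S, n, z, r, R, q, c`.  Let `γ` be a bound
of `r` (if `r = ∅` any element).  `Hit` gives `Q ⊆ S` uncountable and `x`.  Pick `δ₀ ∈ Q`.  Define `h` to be
`q i` on `some '' U (x i)`, `i < n`, and `f δ₀` elsewhere; it is continuous because these sets are
clopen and pairwise disjoint (e.g. induction on `n` with `IsClopen` and `ContinuousMap`/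
`Continuous.if`, or `h = f δ₀ + ∑ i, indicator (some '' U (x i)) (q i - f δ₀)` with
`IsClopen.continuous_indicator`-type lemmas).  For `δ ∈ Q`: `h none = f δ₀ none = c none = f δ none`; for
`y ∈ G δ`: if `y ∈ r` then `y ≤ γ` so `some y` is in no `some '' U (x i)` and
`h (some y) = c (some y) = f δ (some y)`; if `y = z δ i`, then `h (some y) = q i = f δ (some y)`.
So `h ∈ B δ` for all `δ ∈ Q`.  The set `{B ∈ 𝓑 | h ∈ B}` is countable and contains `B '' Q`, and the fibres
of `B` are finite (`B δ = B δ'` implies `δ' ∈ G δ' = G δ`), so `Q` is countable: contradiction.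
-/

set_option autoImplicit false

namespace Pool.Agent.H732.CP

open Set Cardinal Order

/-- a continuous function with prescribed values on finitely many disjoint clopen sets -/
theorem B11x_glue {X : Type} [TopologicalSpace X] (P : ℕ → Set X) (hP : ∀ i, IsClopen (P i))
    (q : ℕ → ℝ) (f₀ : C(X, ℝ)) (n : ℕ)
    (hd : ∀ i < n, ∀ i' < n, i ≠ i' → ∀ y ∈ P i, y ∉ P i') :
    ∃ h : C(X, ℝ), (∀ i < n, ∀ u ∈ P i, h u = q i) ∧ ∀ u, (∀ i < n, u ∉ P i) → h u = f₀ u := by
  classical
  induction n with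
  | zero => exact ⟨f₀, fun i hi => absurd hi (Nat.not_lt_zero i), fun u _ => rfl⟩
  | succ n ih =>
    obtain ⟨h, h1, h2⟩ := ih (fun i hi i' hi' hne => hd i (hi.trans n.lt_succ_self) i'
      (hi'.trans n.lt_succ_self) hne)
    have hcont : Continuous ((P n).piecewise (fun _ => q n) h) := by
      refine Continuous.piecewise ?_ continuous_const h.continuous
      intro a ha
      rw [(hP n).frontier_eq] at ha
      exact absurd ha (Set.notMem_empty a)
    refine ⟨⟨_, hcont⟩, fun i hi u hu => ?_, fun u hu => ?_⟩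
    · rcases Nat.lt_succ_iff_lt_or_eq.1 hi with hi' | rfl
      · have hn : u ∉ P n := hd i hi n n.lt_succ_self hi'.ne u hu
        rw [ContinuousMap.coe_mk, Set.piecewise_eq_of_notMem _ _ _ hn]
        exact h1 i hi' u hu
      · rw [ContinuousMap.coe_mk, Set.piecewise_eq_of_mem _ _ _ hu]
    · rw [ContinuousMap.coe_mk, Set.piecewise_eq_of_notMem _ _ _ (hu n n.lt_succ_self)]
      exact h2 u fun i hi => hu i (hi.trans n.lt_succ_self)

theorem no_base {W : Type} [LinearOrder W] [WellFoundedLT W] (hW : Reg W (succ (succ nu)))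
    {U : W → Set W} (hs : ∀ x, #(U x) ≤ ℵ₁) (hH : Hit U) [TopologicalSpace (Option W)]
    [T2Space (Option W)] [CompactSpace (Option W)]
    (hc : ∀ y, IsClopen (some '' U y : Set (Option W))) :
    ¬ ∃ 𝓑 : Set (Set C(Option W, ℝ)),
        (∀ B ∈ 𝓑,
          @IsOpen C(Option W, ℝ)
            (TopologicalSpace.induced (fun f : C(Option W, ℝ) => (f : Option W → ℝ)) inferInstance) B
          ∧ B.Nonempty) ∧
        (∀ O : Set C(Option W, ℝ),
          @IsOpen C(Option W, ℝ)
            (TopologicalSpace.induced (fun f : C(Option W, ℝ) => (f : Option W → ℝ)) inferInstance) O →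
          O.Nonempty → ∃ B ∈ 𝓑, B ⊆ O) ∧
        (∀ f : C(Option W, ℝ), {B ∈ 𝓑 | f ∈ B}.Countable) := by
  rintro ⟨𝓑, hb1, hb2, hb3⟩
  obtain ⟨B, f, G, hB, hfB, hG, hBG⟩ := base_data 𝓑 hb1 hb2
  obtain ⟨S, n, z, r, R, q, c, hS, hn, hz⟩ := delta hW hs G hG (fun w u => f w u)
  have hne : Nonempty W := by
    refine mk_ne_zero_iff.1 ?_
    rw [hW.card]
    exact hW.reg.pos.ne'
  obtain ⟨γ, hγ⟩ := Finset.exists_le r
  obtain ⟨Q, hQS, hQ, x, hx1, hx2, hx3⟩ := hH n z S γ R hn hS
    (fun δ hδ => ⟨(hz δ hδ).1, (hz δ hδ).2.1⟩) (fun δ hδ => (hz δ hδ).2.2.1)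
  obtain ⟨δ₀, hδ₀⟩ : Q.Nonempty := by
    rw [Set.nonempty_iff_ne_empty]
    rintro rfl
    exact hQ Set.countable_empty
  obtain ⟨h, h1, h2⟩ := B11x_glue (fun i => (some '' U (x i) : Set (Option W)))
    (fun i => hc (x i)) q (f δ₀) n (by
      rintro i hi i' hi' hii _ ⟨y, hy, rfl⟩ ⟨y', hy', he⟩
      rw [Option.some_inj] at he
      subst he
      exact hx2 i hi i' hi' hii _ hy hy')
  have hmem : ∀ δ ∈ Q, h ∈ B δ := by
    intro δ hδ
    obtain ⟨-, -, -, hd1, hd2, hd3, hd4⟩ := hz δ (hQS hδ)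
    obtain ⟨-, -, -, -, -, he3, he4⟩ := hz δ₀ (hQS hδ₀)
    apply hfB
    · rw [h2 none (by
        rintro i _ ⟨y, _, hy⟩
        exact absurd hy (Option.some_ne_none y))]
      exact he3.trans hd3.symm
    · intro y hy
      rcases hd1 y hy with hyr | ⟨i, hi, rfl⟩
      · rw [h2 (some y) (by
          rintro i hi ⟨y', hy', he⟩
          rw [Option.some_inj] at he
          subst he
          exact absurd (hγ _ hyr) (not_le.2 (hx1 i hi _ hy')))]
        exact (he4 y hyr).trans (hd4 y hyr).symm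
      · rw [h1 i hi _ ⟨_, hx3 δ hδ i hi, rfl⟩]
        exact (hd2 i hi).symm
  apply hQ
  have hcount : (B '' Q).Countable := by
    refine Set.Countable.mono ?_ (hb3 h)
    rintro _ ⟨δ, hδ, rfl⟩
    exact ⟨hB δ, hmem δ hδ⟩
  have hcover : Q ⊆ ⋃ b ∈ B '' Q, {δ | B δ = b} := by
    intro δ hδ
    simp only [Set.mem_iUnion]
    exact ⟨B δ, ⟨δ, hδ, rfl⟩, rfl⟩
  refine Set.Countable.mono hcover (hcount.biUnion ?_)
  rintro _ ⟨δ', -, rfl⟩
  refine Set.Countable.mono ?_ (G δ').countable_toSet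
  intro δ hδ
  have hδ' : B δ = B δ' := hδ
  rw [Finset.mem_coe, ← hBG δ δ' hδ']
  exact hG δ

end Pool.Agent.H732.CP
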