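import Pool.Agent.H732.CP.Defs

/-!
TASK B2.  First properties of the family `U`.
-/

set_option autoImplicit false

namespace Pool.Agent.H732.CP

open Set Cardinal Order

section

variable {N W Co : Type} [LinearOrder N] [LinearOrder W] {D : Dat N W Co} {U : W → Set W}
  {l : N} {s : Sq N W} {j : ℕ}

theorem tr_tr (s : Sq N W) {k l : N} (h : k ≤ l) : tr (tr s l) k = tr s k := by
  funext i j m
  unfold tr
  by_cases hi : i < k
  · rw [if_pos hi, if_pos hi, if_pos (lt_of_lt_of_le hi h)]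
  · rw [if_neg hi, if_neg hi]

theorem V_tr (s : Sq N W) {i k : N} (h : i < k) (j : ℕ) : V (tr s k) i j = V s i j := by
  unfold V tr
  simp only [if_pos h]

theorem V_tr_of_le (s : Sq N W) {i k : N} (h : k ≤ i) (j : ℕ) : V (tr s k) i j = ∅ := by
  unfold V tr
  simp only [if_neg (not_lt.2 h)]
  ext x
  simp

theorem VV_tr (s : Sq N W) {i k : N} (h : i < k) : VV (tr s k) i = VV s i := by
  unfold VV
  simp only [V_tr s h]

theorem Vh_tr (s : Sq N W) {i k : N} (h : i < k) (j : ℕ) : Vh D (tr s k) j i = Vh D s j i := by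
  unfold Vh
  rw [V_tr s h, tr_tr s h.le]

/-- initial segments of legitimate sequences of limit length are legitimate -/
theorem Legit.init (h : Legit D U l s j) {k : N} (hk : k < l) (hl : Lim k) :
    Legit D U k (tr s k) j where
  lim := hl
  tr_eq := tr_tr s le_rfl
  form := by
    intro k' hk' i
    rw [V_tr s hk']
    exact h.form k' (hk'.trans hk) i
  good := by
    intro k1 k2 h12 h2 x hx y hy
    rw [VV_tr s (h12.trans h2)] at hx
    rw [VV_tr s h2] at hy
    rw [tr_tr s (h12.trans h2).le]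
    exact h.good k1 k2 h12 (h2.trans hk) x hx y hy
  disj := by
    intro k' hk' i i' hi x hx
    rw [V_tr s hk'] at hx ⊢
    exact h.disj k' (hk'.trans hk) i i' hi x hx
  gap := by
    intro k' hk' hl' i x hx
    rw [VV_tr s hk'] at hx
    rw [tr_tr s hk'.le]
    exact h.gap k' (hk'.trans hk) hl' i x hx
  ne := by
    intro k' hk'
    rw [V_tr s hk']
    exact h.ne k' (hk'.trans hk)

/-- every element of an extended block is below an element of the block -/
theorem Legit.vh_le (h : Legit D U l s j) {i : N} (hi : i < l) {x : W} (hx : x ∈ Vh D s j i) :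
    ∃ v ∈ V s i j, x ≤ v := by
  rcases hx with hx | ⟨hl, hx⟩
  · exact ⟨x, hx, le_rfl⟩
  · obtain ⟨v, hv⟩ := h.ne i hi
    refine ⟨v, hv, ?_⟩
    rw [hx]
    exact (h.gap i hi hl j v ⟨j, hv⟩).le

/-- the extended blocks are increasing.  For `x = pi i (tr s i) j` pick `v ∈ V s i j` (field `ne`) and
use `gap`; for `y = pi i' (tr s i') j` pick `v ∈ V s i' j`?  no: values of `tr s i'` are below `y` by
`D.pi_gt`, in particular those of the position `i < i'`. -/
theorem Legit.vh_lt (h : Legit D U l s j) {i i' : N} (hi : i < i') (hi' : i' < l) {x y : W}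
    (hx : x ∈ Vh D s j i) (hy : y ∈ Vh D s j i') : x < y := by
  obtain ⟨v, hv, hxv⟩ := h.vh_le (hi.trans hi') hx
  refine lt_of_le_of_lt hxv ?_
  rcases hy with hy | ⟨_, hy⟩
  · exact (h.good i i' hi hi' v ⟨j, hv⟩ y ⟨j, hy⟩).1
  · rw [hy]
    refine D.pi_gt i' (tr s i') j i j v ?_
    rw [V_tr s hi]
    exact hv

theorem Legit.vh_lt_pi (h : Legit D U l s j) {i : N} (hi : i < l) {x : W}
    (hx : x ∈ Vh D s j i) : x < D.pi l s j := by
  obtain ⟨v, hv, hxv⟩ := h.vh_le hi hx
  exact lt_of_le_of_lt hxv (D.pi_gt l s j i j v hv)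

/-- the extended block of another coordinate at a limit position is also above earlier blocks -/
theorem U_legit (hU : ∀ z, U z = Body D U z) (h : Legit D U l s j) :
    U (D.pi l s j) = {x | x = D.pi l s j ∨ ∃ k < l, x ∈ Vh D s j k} := by
  rw [hU]
  ext x
  constructor
  · rintro (hx | ⟨l', s', j', hp, _, k, hk, hx⟩)
    · exact Or.inl hx
    · obtain ⟨rfl, rfl, rfl⟩ := D.pi_inj _ _ _ _ _ _ hp
      exact Or.inr ⟨k, hk, hx⟩
  · rintro (hx | ⟨k, hk, hx⟩)
    · exact Or.inl hx
    · exact Or.inr ⟨l, s, j, rfl, h, k, hk, hx⟩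

/-- the sets of the initial segments of limit length -/
theorem U_init (hU : ∀ z, U z = Body D U z) (h : Legit D U l s j) {k : N} (hk : k < l)
    (hl : Lim k) :
    U (D.pi k (tr s k) j) = {x | x = D.pi k (tr s k) j ∨ ∃ i < k, x ∈ Vh D s j i} := by
  rw [U_legit hU (h.init hk hl)]
  ext x
  constructor
  · rintro (hx | ⟨i, hi, hx⟩)
    · exact Or.inl hx
    · rw [Vh_tr s hi] at hx
      exact Or.inr ⟨i, hi, hx⟩
  · rintro (hx | ⟨i, hi, hx⟩)
    · exact Or.inl hx
    · refine Or.inr ⟨i, hi, ?_⟩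
      rw [Vh_tr s hi]
      exact hx

theorem U_iso (hU : ∀ z, U z = Body D U z) {z : W}
    (h : ∀ l s j, D.pi l s j = z → ¬ Legit D U l s j) : U z = {z} := by
  rw [hU]
  ext x
  constructor
  · rintro (hx | ⟨l', s', j', hp, hL, _⟩)
    · exact hx
    · exact absurd hL (h l' s' j' hp)
  · intro hx
    exact Or.inl hx

theorem U_self (hU : ∀ z, U z = Body D U z) (z : W) : z ∈ U z := by
  rw [hU]
  exact Or.inl rfl

theorem U_le (hU : ∀ z, U z = Body D U z) {z x : W} (h : x ∈ U z) : x ≤ z := by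
  rw [hU] at h
  rcases h with hx | ⟨l', s', j', hp, hL, k, hk, hx⟩
  · exact hx.le
  · rw [← hp]
    exact (hL.vh_lt_pi hk hx).le

theorem V_small (hN : #N ≤ ℵ₁) (s : Sq N W) (k : N) (j : ℕ) : #(V s k j) ≤ ℵ₁ := by
  refine le_trans ?_ hN
  have hc : ∀ x : V s k j, ∃ m, s k j m = some (x : W) := fun x => x.2
  choose f hf using hc
  refine Cardinal.mk_le_of_injective (f := f) ?_
  intro x y hxy
  have h1 := hf x
  have h2 := hf y
  rw [hxy, h2] at h1
  exact Subtype.ext (Option.some.inj h1).symm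

theorem Vh_small (hN : #N ≤ ℵ₁) (s : Sq N W) (j : ℕ) (k : N) : #(Vh D s j k) ≤ ℵ₁ := by
  have h1 : Vh D s j k ⊆ V s k j ∪ {D.pi k (tr s k) j} := by
    rintro x (hx | ⟨_, hx⟩)
    · exact Or.inl hx
    · exact Or.inr hx
  refine (Cardinal.mk_le_mk_of_subset h1).trans ((Cardinal.mk_union_le _ _).trans ?_)
  have h2 : #({D.pi k (tr s k) j} : Set W) ≤ ℵ₁ := by
    rw [Cardinal.mk_singleton]
    exact (Cardinal.one_lt_aleph0.le).trans (Cardinal.aleph0_le_aleph 1)
  exact (add_le_add (V_small hN s k j) h2).trans_eq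
    (Cardinal.add_eq_self (Cardinal.aleph0_le_aleph 1))

theorem U_small (hN : #N ≤ ℵ₁) (hU : ∀ z, U z = Body D U z) (z : W) : #(U z) ≤ ℵ₁ := by
  have h0 : (1 : Cardinal.{0}) ≤ ℵ₁ := (Cardinal.one_lt_aleph0.le).trans (Cardinal.aleph0_le_aleph 1)
  by_cases h : ∃ l s j, D.pi l s j = z ∧ Legit D U l s j
  · obtain ⟨l, s, j, rfl, hL⟩ := h
    rw [U_legit hU hL]
    have h1 : {x | x = D.pi l s j ∨ ∃ k < l, x ∈ Vh D s j k} ⊆
        {D.pi l s j} ∪ ⋃ k : N, Vh D s j k := by
      rintro x (hx | ⟨k, _, hx⟩)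
      · exact Or.inl hx
      · exact Or.inr (Set.mem_iUnion.2 ⟨k, hx⟩)
    refine (Cardinal.mk_le_mk_of_subset h1).trans ((Cardinal.mk_union_le _ _).trans ?_)
    have h2 : #(⋃ k : N, Vh D s j k) ≤ ℵ₁ := by
      refine (Cardinal.mk_iUnion_le_sum_mk).trans ?_
      refine (Cardinal.sum_le_sum _ (fun _ => ℵ₁) (fun k => Vh_small hN s j k)).trans ?_
      rw [Cardinal.sum_const']
      exact (mul_le_mul' hN le_rfl).trans_eq (Cardinal.mul_eq_self (Cardinal.aleph0_le_aleph 1))
    rw [Cardinal.mk_singleton]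
    exact (add_le_add h0 h2).trans_eq (Cardinal.add_eq_self (Cardinal.aleph0_le_aleph 1))
  · push Not at h
    rw [U_iso hU h, Cardinal.mk_singleton]
    exact h0

theorem Tl_mono {k k' : N} (h : k ≤ k') : Tl D l s j k' ⊆ Tl D l s j k := by
  rintro x (hx | ⟨i, h1, h2, hx⟩)
  · exact Or.inl hx
  · exact Or.inr ⟨i, lt_of_le_of_lt h h1, h2, hx⟩

/-- intersections of two sets deciding a point, unions, complements, differences -/
theorem Dec.diff {A B : Set W} (hA : Dec D l s j A) (hB : Dec D l s j B) :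
    Dec D l s j (A \ B) := by
  obtain ⟨k, hk, hA⟩ := hA
  obtain ⟨k', hk', hB⟩ := hB
  refine ⟨max k k', max_lt hk hk', ?_⟩
  rcases hA with hA | hA
  · rcases hB with hB | hB
    · right
      intro x hx hx2
      exact hx2.2 (hB (Tl_mono (le_max_right k k') hx))
    · left
      intro x hx
      exact ⟨hA (Tl_mono (le_max_left k k') hx), hB x (Tl_mono (le_max_right k k') hx)⟩
  · right
    intro x hx hx2
    exact hA x (Tl_mono (le_max_left k k') hx) hx2.1

theorem Dec.union {A B : Set W} (hA : Dec D l s j A) (hB : Dec D l s j B) :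
    Dec D l s j (A ∪ B) := by
  obtain ⟨k, hk, hA⟩ := hA
  obtain ⟨k', hk', hB⟩ := hB
  refine ⟨max k k', max_lt hk hk', ?_⟩
  rcases hA with hA | hA
  · left
    intro x hx
    exact Or.inl (hA (Tl_mono (le_max_left k k') hx))
  · rcases hB with hB | hB
    · left
      intro x hx
      exact Or.inr (hB (Tl_mono (le_max_right k k') hx))
    · right
      rintro x hx (hx2 | hx2)
      · exact hA x (Tl_mono (le_max_left k k') hx) hx2
      · exact hB x (Tl_mono (le_max_right k k') hx) hx2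

theorem dec_empty (hl : Lim l) : Dec D l s j (∅ : Set W) := by
  obtain ⟨m, hm⟩ := hl.1
  exact ⟨m, hm, Or.inr fun x _ hx => hx⟩

/-- finite unions; `hl` gives a position below `l` when `F` is empty -/
theorem Dec.fin (hl : Lim l) (F : Finset W) (h : ∀ f ∈ F, Dec D l s j (U f)) :
    Dec D l s j {x | ∃ f ∈ F, x ∈ U f} := by
  classical
  induction F using Finset.induction_on with
  | empty =>
    have e : {x | ∃ f ∈ (∅ : Finset W), x ∈ U f} = ∅ := by
      ext x
      simp
    rw [e]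
    exact dec_empty hl
  | insert a F _ ih =>
    have e : {x | ∃ f ∈ insert a F, x ∈ U f} = U a ∪ {x | ∃ f ∈ F, x ∈ U f} := by
      ext x
      simp
    rw [e]
    exact Dec.union (h a (Finset.mem_insert_self a F))
      (ih fun f hf => h f (Finset.mem_insert_of_mem hf))

theorem Dec.empty (hl : Lim l) : Dec D l s j (∅ : Set W) := dec_empty hl

end

end Pool.Agent.H732.CP
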