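import Pool.Agent.H732.CP.B2

/-!
TASK B3.  If the separation statement `SS` holds for all limit points below `w`, then all sets `U y`,
`y < w`, decide all limit points `< w`.

Proof.  Fix the limit point `z = D.pi l s j < w` and prove `Dec D l s j (U y)` by strong induction on
`y < w`.
* `y < z`: this is `SS` for `z` (second alternative).
* `y = z`: `Tl D l s j k ⊆ U z` by `U_legit` (any `k < l`, exists by `Lim l`).
* `y > z`, `y` not a limit point (`U_iso`): `U y = {y}` and all elements of `Tl D l s j k ⊆ U z` are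
  `≤ z < y` (`U_le`).
* `y > z`, `y = D.pi l' s' j'` legitimate: by `SS` for `y` applied to `z < y` there is `k < l'` with
  `Tl D l' s' j' k` disjoint from `U z`.  Let `I k := {x | ∃ i ≤ k, x ∈ Vh D s' j' i}`.  So for
  elements `x` of a tail of `z` (which lies in `U z`): `x ∈ U y ↔ x ∈ I k`.  So it suffices that
  `I k` decides `z`, for all `k < l'`.  Induction on `k` (three cases): `k` limit: `I k =
  U (D.pi k (tr s' k) j') ∪ V s' k j'` (`U_init`), here `D.pi k (tr s' k) j' < y` by `Legit.vh_lt_pi`
  (it is an element of `Vh D s' j' k`); `k` has a predecessor `m` (some `m < k` with nothing in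
  between): `I k = I m ∪ V s' k j'`; `k` minimal: `I k = V s' k j'`.  And `V s' k j'` is `∅` or
  `U a \ ⋃_{f ∈ F} U f` with `a ∈ V s' k j'`, so `a < y` and `f < a < y` (`D.pi_gt`): use the
  induction hypothesis and `Dec.diff`, `Dec.fin`, `Dec.union`, `Dec.empty`.
-/

set_option autoImplicit false

namespace Pool.Agent.H732.CP

open Set Cardinal Order

variable {N W Co : Type} [LinearOrder N] [WellFoundedLT N] [LinearOrder W] [WellFoundedLT W]
  {D : Dat N W Co} {U : W → Set W}

/-- A set of the form of a block, with entries below `w`, decides a point if the `U y`, `y < w`, do. -/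
theorem dec_form {l : N} {s : Sq N W} {j : ℕ} (hl : Lim l) {w : W} {C : Set W}
    (hC : C = ∅ ∨ ∃ a ∈ C, ∃ F : Finset W, (∀ f ∈ F, f < a) ∧ C = U a \ {x | ∃ f ∈ F, x ∈ U f})
    (hw : ∀ x ∈ C, x < w) (h : ∀ y < w, Dec D l s j (U y)) : Dec D l s j C := by
  rcases hC with hC | ⟨a, haC, F, hF, hC⟩
  · rw [hC]
    exact Dec.empty hl
  · have haw := hw a haC
    rw [hC]
    exact Dec.diff (h a haw) (Dec.fin hl F (fun f hf => h f ((hF f hf).trans haw)))

/-- the union of the extended blocks up to the position `k` decides a point -/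
private theorem dec_blocks (hU : ∀ z, U z = Body D U z) {l : N} {s : Sq N W} {j : ℕ}
    (hl : Lim l) {l' : N} {s' : Sq N W} {j' : ℕ} (h' : Legit D U l' s' j')
    (h : ∀ y < D.pi l' s' j', Dec D l s j (U y)) (k : N) :
    k < l' → Dec D l s j {x | ∃ i ≤ k, x ∈ Vh D s' j' i} := by
  induction k using WellFoundedLT.induction with
  | ind k ih =>
    intro hk
    have hV : Dec D l s j (V s' k j') :=
      dec_form hl (h'.form k hk j') (fun x hx => D.pi_gt l' s' j' k j' x hx) h
    by_cases hlim : Lim k
    · have hlt : D.pi k (tr s' k) j' < D.pi l' s' j' := h'.vh_lt_pi hk (Or.inr ⟨hlim, rfl⟩)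
      have heq : {x | ∃ i ≤ k, x ∈ Vh D s' j' i} = U (D.pi k (tr s' k) j') ∪ V s' k j' := by
        rw [U_init hU h' hk hlim]
        ext x
        constructor
        · rintro ⟨i, hi, hx⟩
          rcases lt_or_eq_of_le hi with hi | hi
          · exact Or.inl (Or.inr ⟨i, hi, hx⟩)
          · rw [hi] at hx
            rcases hx with hx | ⟨_, hx⟩
            · exact Or.inr hx
            · exact Or.inl (Or.inl hx)
        · rintro ((hx | ⟨i, hi, hx⟩) | hx)
          · exact ⟨k, le_rfl, Or.inr ⟨hlim, hx⟩⟩
          · exact ⟨i, hi.le, hx⟩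
          · exact ⟨k, le_rfl, Or.inl hx⟩
      rw [heq]
      exact Dec.union (h _ hlt) hV
    · have hVh : ∀ x, x ∈ Vh D s' j' k ↔ x ∈ V s' k j' := by
        intro x
        constructor
        · rintro (hx | ⟨hx, _⟩)
          · exact hx
          · exact absurd hx hlim
        · intro hx
          exact Or.inl hx
      by_cases hm : ∃ m, m < k
      · have hm2 : ∃ m < k, ∀ m', m < m' → ¬ m' < k := by
          by_contra hcon
          push Not at hcon
          exact hlim ⟨hm, hcon⟩
        obtain ⟨m, hmk, hm3⟩ := hm2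
        have heq : {x | ∃ i ≤ k, x ∈ Vh D s' j' i} =
            {x | ∃ i ≤ m, x ∈ Vh D s' j' i} ∪ V s' k j' := by
          ext x
          constructor
          · rintro ⟨i, hi, hx⟩
            rcases lt_or_eq_of_le hi with hi | hi
            · exact Or.inl ⟨i, not_lt.mp fun hmi => hm3 i hmi hi, hx⟩
            · rw [hi] at hx
              exact Or.inr ((hVh x).mp hx)
          · rintro (⟨i, hi, hx⟩ | hx)
            · exact ⟨i, hi.trans hmk.le, hx⟩
            · exact ⟨k, le_rfl, (hVh x).mpr hx⟩
        rw [heq]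
        exact Dec.union (ih m hmk (hmk.trans hk)) hV
      · have heq : {x | ∃ i ≤ k, x ∈ Vh D s' j' i} = V s' k j' := by
          ext x
          constructor
          · rintro ⟨i, hi, hx⟩
            rcases lt_or_eq_of_le hi with hi | hi
            · exact absurd ⟨i, hi⟩ hm
            · rw [hi] at hx
              exact (hVh x).mp hx
          · intro hx
            exact ⟨k, le_rfl, (hVh x).mpr hx⟩
        rw [heq]
        exact hV

theorem dec_of_ss (hU : ∀ z, U z = Body D U z) (w : W)
    (hS : ∀ l s j, Legit D U l s j → D.pi l s j < w → SS D U l s j) :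
    ∀ l s j, Legit D U l s j → D.pi l s j < w → ∀ y < w, Dec D l s j (U y) := by
  intro l s j hL hz y
  have hsub : ∀ k, Tl D l s j k ⊆ U (D.pi l s j) := by
    intro k x hx
    rw [U_legit hU hL]
    rcases hx with hx | ⟨i, _, hi, hx⟩
    · exact Or.inl hx
    · exact Or.inr ⟨i, hi, hx⟩
  obtain ⟨k₀, hk₀⟩ := hL.lim.1
  induction y using WellFoundedLT.induction with
  | ind y ih =>
    intro hy
    rcases lt_trichotomy y (D.pi l s j) with hyz | hyz | hyz
    · obtain ⟨k, hk, hk2⟩ := hS l s j hL hz y hyz
      exact ⟨k, hk, Or.inr hk2⟩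
    · rw [hyz]
      exact ⟨k₀, hk₀, Or.inl (hsub k₀)⟩
    · by_cases hleg : ∀ l' s' j', D.pi l' s' j' = y → ¬ Legit D U l' s' j'
      · rw [U_iso hU hleg]
        refine ⟨k₀, hk₀, Or.inr ?_⟩
        intro x hx hxy
        have h1 := U_le hU (hsub k₀ hx)
        rw [mem_singleton_iff.mp hxy] at h1
        exact absurd hyz (not_lt.mpr h1)
      · push Not at hleg
        obtain ⟨l', s', j', rfl, h'⟩ := hleg
        obtain ⟨k', hk', hk2⟩ := hS l' s' j' h' hy _ hyz
        have hI := dec_blocks hU hL.lim h' (fun y' hy' => ih y' hy' (hy'.trans hy)) k' hk'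
        obtain ⟨k, hk, hk3⟩ := hI
        refine ⟨k, hk, ?_⟩
        have hUy := U_legit hU h'
        rcases hk3 with hk3 | hk3
        · left
          intro x hx
          obtain ⟨i, hi, hxi⟩ := hk3 hx
          rw [hUy]
          exact Or.inr ⟨i, lt_of_le_of_lt hi hk', hxi⟩
        · right
          intro x hx hxU
          rw [hUy] at hxU
          rcases hxU with hxU | ⟨i, hi, hxi⟩
          · exact hk2 x (Or.inl hxU) (hsub k hx)
          · rcases le_or_gt i k' with hik | hik
            · exact hk3 x hx ⟨i, hik, hxi⟩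
            · exact hk2 x (Or.inr ⟨i, hik, hi, hxi⟩) (hsub k hx)

end Pool.Agent.H732.CP
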