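import Pool.Agent.H732.CP.B3

/-!
TASK B4.  The separation statement for all limit points.
-/

set_option autoImplicit false

namespace Pool.Agent.H732.CP

open Set Cardinal Order

variable {N W Co : Type} [LinearOrder N] [WellFoundedLT N] [LinearOrder W] [WellFoundedLT W]
  {D : Dat N W Co} {U : W → Set W}

omit [WellFoundedLT N] [WellFoundedLT W] in
theorem exists_mem_tail {l : N} {s : Sq N W} {j : ℕ} (h : Legit D U l s j) {C : Set W}
    (hC : Dec D l s j C) (hm : D.pi l s j ∈ C) {k : N} (hk : k < l) :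
    ∃ i, k < i ∧ i < l ∧ ∃ x ∈ V s i j, x ∈ C := by
  obtain ⟨k1, h1, h2⟩ := hC
  obtain ⟨i, h3, h4⟩ := h.lim.2 (max k k1) (max_lt hk h1)
  obtain ⟨x, hx⟩ := h.ne i h4
  rcases h2 with h2 | h2
  · exact ⟨i, (le_max_left _ _).trans_lt h3, h4, x, hx,
      h2 (Or.inr ⟨i, (le_max_right _ _).trans_lt h3, h4, Or.inl hx⟩)⟩
  · exact absurd hm (h2 _ (Or.inl rfl))

omit [WellFoundedLT W] in
theorem ss_step1 (hU : ∀ z, U z = Body D U z) {l l' : N} {s s' : Sq N W} {j j' : ℕ}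
    (h : Legit D U l s j) (h' : Legit D U l' s' j')
    (ih : ∀ y < D.pi l' s' j', ∃ k < l, ∀ x ∈ Tl D l s j k, x ∉ U y) (k' : N) (hk' : k' < l') :
    ∃ k < l, ∀ x ∈ Tl D l s j k, ∀ i ≤ k', x ∉ Vh D s' j' i := by
  induction k' using WellFoundedLT.induction with
  | ind k' ih2 =>
  obtain ⟨k0, hk0⟩ := h.lim.1
  obtain ⟨k1, a1, a2⟩ : ∃ k < l, ∀ x ∈ Tl D l s j k, x ∉ V s' k' j' := by
    rcases h'.form k' hk' j' with h1 | ⟨a, ha, F, -, h1⟩
    · exact ⟨k0, hk0, fun x _ hx => by rw [h1] at hx; exact hx⟩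
    · obtain ⟨k, b1, b2⟩ := ih a (D.pi_gt _ _ _ _ _ _ ha)
      exact ⟨k, b1, fun x hx hx' => b2 x hx (by rw [h1] at hx'; exact hx'.1)⟩
  obtain ⟨k2, c1, c2⟩ : ∃ k < l, ∀ x ∈ Tl D l s j k, (∀ i < k', x ∉ Vh D s' j' i) ∧
      (Lim k' → x ≠ D.pi k' (tr s' k') j') := by
    by_cases hl : Lim k'
    · obtain ⟨k, b1, b2⟩ := ih (D.pi k' (tr s' k') j') (h'.vh_lt_pi hk' (Or.inr ⟨hl, rfl⟩))
      rw [U_init hU h' hk' hl] at b2
      exact ⟨k, b1, fun x hx => ⟨fun i hi hxi => b2 x hx (Or.inr ⟨i, hi, hxi⟩),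
        fun _ he => b2 x hx (Or.inl he)⟩⟩
    · by_cases hm : ∃ m, m < k'
      · have h3 : ∃ m < k', ∀ m', m < m' → ¬ m' < k' := by
          by_contra hn
          push Not at hn
          exact hl ⟨hm, hn⟩
        obtain ⟨m, h4, h5⟩ := h3
        obtain ⟨k, b1, b2⟩ := ih2 m h4 (h4.trans hk')
        exact ⟨k, b1, fun x hx => ⟨fun i hi => b2 x hx i (not_lt.1 fun h6 => h5 i h6 hi),
          fun h6 => absurd h6 hl⟩⟩
      · exact ⟨k0, hk0, fun x _ => ⟨fun i hi => absurd ⟨i, hi⟩ hm, fun h6 => absurd h6 hl⟩⟩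
  refine ⟨max k1 k2, max_lt a1 c1, fun x hx i hi hxi => ?_⟩
  have hx1 := Tl_mono (le_max_left k1 k2) hx
  have hx2 := Tl_mono (le_max_right k1 k2) hx
  rcases hi.lt_or_eq with hi | rfl
  · exact (c2 x hx2).1 i hi hxi
  · rcases hxi with hxi | ⟨hl, hxi⟩
    · exact a2 x hx1 hxi
    · exact (c2 x hx2).2 hl hxi

theorem ss_step3 (hU : ∀ z, U z = Body D U z) {l l' : N} {s s' : Sq N W} {j j' : ℕ}
    (h : Legit D U l s j) (h' : Legit D U l' s' j') (hlt : D.pi l' s' j' < D.pi l s j)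
    (hd : ∀ l₁ s₁ j₁, Legit D U l₁ s₁ j₁ → D.pi l₁ s₁ j₁ < D.pi l s j →
      ∀ y < D.pi l s j, Dec D l₁ s₁ j₁ (U y))
    (ih : ∀ y < D.pi l' s' j', ∃ k < l, ∀ x ∈ Tl D l s j k, x ∉ U y)
    (hcon : ∀ k < l, ∃ x ∈ Tl D l s j k, x ∈ U (D.pi l' s' j')) (k k' : N) (hk : k < l)
    (hk' : k' < l') :
    ∃ i i', k < i ∧ i < l ∧ k' < i' ∧ i' < l' ∧ ∃ x, x ∈ V s i j ∧ x ∈ V s' i' j' := by
  have hV : ∀ i < l, ∀ l₁ s₁ j₁, Legit D U l₁ s₁ j₁ → D.pi l₁ s₁ j₁ < D.pi l s j →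
      Dec D l₁ s₁ j₁ (V s i j) := fun i hi l₁ s₁ j₁ h₁ hlt₁ =>
    dec_form h₁.lim (h.form i hi j) (fun x hx => D.pi_gt l s j _ _ x hx) (hd l₁ s₁ j₁ h₁ hlt₁)
  have hV' : ∀ i < l', ∀ l₁ s₁ j₁, Legit D U l₁ s₁ j₁ → D.pi l₁ s₁ j₁ < D.pi l s j →
      Dec D l₁ s₁ j₁ (V s' i j') := fun i hi l₁ s₁ j₁ h₁ hlt₁ =>
    dec_form h₁.lim (h'.form i hi j') (fun x hx => (D.pi_gt l' s' j' _ _ x hx).trans hlt)
      (hd l₁ s₁ j₁ h₁ hlt₁)
  obtain ⟨k1, a1, a2⟩ := ss_step1 hU h h' ih k' hk'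
  obtain ⟨x, hx, hxy⟩ := hcon (max k k1) (max_lt hk a1)
  have hx1 := a2 x (Tl_mono (le_max_right k k1) hx)
  rw [U_legit hU h'] at hxy
  rcases Tl_mono (le_max_left k k1) hx with hxz | ⟨i, hi, hil, hxi⟩
  · exfalso
    have h1 : x ≤ D.pi l' s' j' := by
      rcases hxy with rfl | ⟨i', hi', hxi'⟩
      exacts [le_rfl, (h'.vh_lt_pi hi' hxi').le]
    exact (h1.trans_lt hlt).ne hxz
  rcases hxi with hxi | ⟨hli, hxi⟩
  · rcases hxy with hxy | ⟨i', hi', hxi'⟩
    · obtain ⟨i', b1, b2, x', b3, b4⟩ := exists_mem_tail h' (hV i hil l' s' j' h' hlt)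
        (hxy ▸ hxi) hk'
      exact ⟨i, i', hi, hil, b1, b2, x', b4, b3⟩
    · have hki : k' < i' := not_le.1 fun hle => hx1 i' hle hxi'
      rcases hxi' with hxi' | ⟨hli', hxi'⟩
      · exact ⟨i, i', hi, hil, hki, hi', x, hxi, hxi'⟩
      · have h2 := h'.init hi' hli'
        have h3 : D.pi i' (tr s' i') j' < D.pi l s j :=
          (h'.vh_lt_pi hi' (Or.inr ⟨hli', rfl⟩)).trans hlt
        obtain ⟨i₂, b1, b2, x', b3, b4⟩ := exists_mem_tail h2 (hV i hil _ _ _ h2 h3)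
          (hxi' ▸ hxi) hki
        rw [V_tr s' b2] at b3
        exact ⟨i, i₂, hi, hil, b1, b2.trans hi', x', b4, b3⟩
  · have h2 := h.init hil hli
    have h3 : D.pi i (tr s i) j < D.pi l s j := h.vh_lt_pi hil (Or.inr ⟨hli, rfl⟩)
    have key : ∀ i' : N, k' < i' → i' ≤ l' → D.pi i (tr s i) j = D.pi i' (tr s' i') j' →
        ∃ i i', k < i ∧ i < l ∧ k' < i' ∧ i' < l' ∧ ∃ x, x ∈ V s i j ∧ x ∈ V s' i' j' := by
      intro i' hki hi' he
      obtain ⟨e1, e2, e3⟩ := D.pi_inj _ _ _ _ _ _ he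
      subst e1 e3
      obtain ⟨i₂, b1, b2⟩ := hli.2 (max k k') (max_lt hi hki)
      obtain ⟨x', b3⟩ := h.ne i₂ (b2.trans hil)
      refine ⟨i₂, i₂, (le_max_left _ _).trans_lt b1, b2.trans hil, (le_max_right _ _).trans_lt b1,
        b2.trans_le hi', x', b3, ?_⟩
      rw [← V_tr s' b2, ← e2, V_tr s b2]
      exact b3
    rcases hxy with hxy | ⟨i', hi', hxi'⟩
    · exact key l' hk' le_rfl (by rw [h'.tr_eq, ← hxi, hxy])
    · have hki : k' < i' := not_le.1 fun hle => hx1 i' hle hxi'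
      rcases hxi' with hxi' | ⟨hli', hxi'⟩
      · obtain ⟨i₂, b1, b2, x', b3, b4⟩ := exists_mem_tail h2 (hV' i' hi' _ _ _ h2 h3)
          (hxi ▸ hxi') hi
        rw [V_tr s b2] at b3
        exact ⟨i₂, i', b1, b2.trans hil, hki, hi', x', b3, b4⟩
      · exact key i' hki hi'.le (by rw [← hxi, hxi'])

theorem ss_all (hU : ∀ z, U z = Body D U z) {l : N} {s : Sq N W} {j : ℕ} (h : Legit D U l s j) :
    SS D U l s j := by
  have main : ∀ w, ∀ l s j, Legit D U l s j → D.pi l s j = w → SS D U l s j := by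
    intro w
    induction w using WellFoundedLT.induction with
    | ind w IH =>
    intro l s j h hw
    subst hw
    have hd := dec_of_ss hU (D.pi l s j) fun l₁ s₁ j₁ h₁ hlt => IH _ hlt l₁ s₁ j₁ h₁ rfl
    intro y
    induction y using WellFoundedLT.induction with
    | ind y ih =>
    intro hy
    obtain ⟨k0, hk0⟩ := h.lim.1
    by_cases hleg : ∃ l' s' j', D.pi l' s' j' = y ∧ Legit D U l' s' j'
    · obtain ⟨l', s', j', rfl, h'⟩ := hleg
      by_contra hcon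
      push Not at hcon
      have step3 := ss_step3 hU h h' hy hd (fun y' hy' => ih y' hy' (hy'.trans hy)) hcon
      have step4 : ∀ k k', k < l → k' < l' → ∃ i, k < i ∧ i < l ∧ k' < i ∧ i < l' ∧
          tr s i = tr s' i ∧ ∃ x, x ∈ V s i j ∧ x ∈ V s' i j' := by
        intro k k' hk hk'
        obtain ⟨i, i', a1, a2, a3, a4, a, a5, a6⟩ := step3 k k' hk hk'
        obtain ⟨i₁, i₁', b1, b2, b3, b4, b, b5, b6⟩ := step3 i i' a2 a4
        have c1 := h.good i i₁ b1 b2 a ⟨j, a5⟩ b ⟨j, b5⟩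
        have c2 := h'.good i' i₁' b3 b4 a ⟨j', a6⟩ b ⟨j', b6⟩
        have c3 := D.code_inj i i' s s' b (fun m n x hx => by
            by_cases hm : m < i
            · rw [V_tr s hm] at hx
              exact (h.good m i₁ (hm.trans b1) b2 x ⟨n, hx⟩ b ⟨j, b5⟩).1
            · rw [V_tr_of_le s (not_lt.1 hm)] at hx
              exact absurd hx (notMem_empty x))
          (fun m n x hx => by
            by_cases hm : m < i'
            · rw [V_tr s' hm] at hx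
              exact (h'.good m i₁' (hm.trans b3) b4 x ⟨n, hx⟩ b ⟨j', b6⟩).1
            · rw [V_tr_of_le s' (not_lt.1 hm)] at hx
              exact absurd hx (notMem_empty x))
          (c1.2.symm.trans c2.2)
        obtain ⟨c4, c5⟩ := c3
        subst c4
        exact ⟨i, a1, a2, a3, a4, c5, a, a5, a6⟩
      obtain ⟨k0', hk0'⟩ := h'.lim.1
      have e1 : l = l' := by
        rcases lt_trichotomy l l' with h1 | h1 | h1
        · obtain ⟨i, -, a2, a3, -⟩ := step4 k0 l hk0 h1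
          exact absurd (a2.trans a3) (lt_irrefl _)
        · exact h1
        · obtain ⟨i, a1, -, -, a4, -⟩ := step4 l' k0' h1 hk0'
          exact absurd (a4.trans a1) (lt_irrefl _)
      subst e1
      have e2 : s = s' := by
        funext m
        by_cases hm : m < l
        · obtain ⟨i, a1, -, -, -, a5, -⟩ := step4 m m hm hm
          funext n p
          have := congrFun (congrFun (congrFun a5 m) n) p
          simpa [tr, a1] using this
        · rw [← h.tr_eq, ← h'.tr_eq]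
          funext n p
          simp [tr, hm]
      subst e2
      have e3 : j = j' := by
        obtain ⟨i, -, a2, -, -, -, x, a5, a6⟩ := step4 k0 k0 hk0 hk0
        by_contra hne
        exact h.disj i a2 j j' hne x a5 a6
      subst e3
      exact lt_irrefl _ hy
    · have hiso : U y = {y} := U_iso hU fun l' s' j' he h' => hleg ⟨l', s', j', he, h'⟩
      rw [hiso]
      by_cases hm : ∃ i < l, y ∈ Vh D s j i
      · obtain ⟨i, hi, hyi⟩ := hm
        refine ⟨i, hi, fun x hx hxy => ?_⟩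
        rw [mem_singleton_iff] at hxy
        subst hxy
        rcases hx with hx | ⟨i', a1, a2, a3⟩
        · exact hy.ne hx
        · exact lt_irrefl _ (h.vh_lt a1 a2 hyi a3)
      · refine ⟨k0, hk0, fun x hx hxy => ?_⟩
        rw [mem_singleton_iff] at hxy
        subst hxy
        rcases hx with hx | ⟨i', a1, a2, a3⟩
        · exact hy.ne hx
        · exact hm ⟨i', a2, a3⟩
  exact main _ l s j h rfl

end Pool.Agent.H732.CP
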