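import Pool.Agent.H732.CP.B4

/-!
TASK B5.  Compactness.

`Fam.self, le, small` are `U_self, U_le, U_small`.  `conv`: let `z` be the least element with
`U z ∈ F`.  If `U z = {z}` take `x = z` (`F` is principal).  Otherwise `z = D.pi l s j` is legitimate.
For `k < l` the set `I k := {x | ∃ i ≤ k, x ∈ Vh D s j i}` is not in `F`: induction on `k` (`k` limit:
`I k = U (D.pi k (tr s k) j) ∪ V s k j`, where `D.pi k (tr s k) j < z`, so its `U` is not in `F`;
`k` has a predecessor `m`: `I k = I m ∪ V s k j`; `k` minimal: `I k = V s k j`), and `V s k j` is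
contained in some `U a` with `a < z` or empty.  Since `U z ⊆ I k ∪ Tl D l s j k`, all tails are in
`F`.  By `ss_all` and `dec_of_ss` every `U y` decides `z`: (for `y < z` by `ss_all`; for all `y`, `z`
use `dec_of_ss` with `w` larger than `y` and `z`; `W` has no largest element by assumption).  If
`Tl k ⊆ U y` then `z ∈ U y` and `U y ∈ F`; otherwise `z ∉ U y` and `U y ∉ F`.
-/

set_option autoImplicit false
set_option linter.unusedSectionVars false

namespace Pool.Agent.H732.CP

open Set Cardinal Order

variable {N W Co : Type} [LinearOrder N] [WellFoundedLT N] [LinearOrder W] [WellFoundedLT W]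
  {D : Dat N W Co} {U : W → Set W}

theorem B5x_V {l : N} {s : Sq N W} {j : ℕ} (h : Legit D U l s j) (F : Ultrafilter W)
    (hmin : ∀ y < D.pi l s j, U y ∉ F) {k : N} (hk : k < l) : V s k j ∉ F := by
  intro hV
  rcases h.form k hk j with h0 | ⟨a, ha, G, _, hG⟩
  · rw [h0] at hV
    exact F.empty_notMem hV
  · have hlt : a < D.pi l s j := D.pi_gt l s j k j a ha
    refine hmin a hlt (Filter.mem_of_superset hV ?_)
    rw [hG]
    exact Set.sdiff_subset

theorem B5x_I (hU : ∀ z, U z = Body D U z) {l : N} {s : Sq N W} {j : ℕ} (h : Legit D U l s j)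
    (F : Ultrafilter W) (hmin : ∀ y < D.pi l s j, U y ∉ F) :
    ∀ k, k < l → {x | ∃ i ≤ k, x ∈ Vh D s j i} ∉ F := by
  intro k
  induction k using WellFoundedLT.induction with
  | ind k ih =>
    intro hk hI
    have hV := B5x_V h F hmin hk
    by_cases hlim : Lim k
    · have hsub : {x | ∃ i ≤ k, x ∈ Vh D s j i} ⊆ U (D.pi k (tr s k) j) ∪ V s k j := by
        rintro x ⟨i, hi, hx⟩
        rcases lt_or_eq_of_le hi with hlt | heq
        · left
          rw [U_init hU h hk hlim]
          exact Or.inr ⟨i, hlt, hx⟩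
        · subst heq
          rcases hx with hx | ⟨_, hx⟩
          · exact Or.inr hx
          · left
            rw [hx]
            exact U_self hU _
      have hmem : U (D.pi k (tr s k) j) ∪ V s k j ∈ F := Filter.mem_of_superset hI hsub
      rcases Ultrafilter.union_mem_iff.1 hmem with h1 | h1
      · refine hmin _ ?_ h1
        exact h.vh_lt_pi hk (Or.inr ⟨hlim, rfl⟩)
      · exact hV h1
    · by_cases hm : ∃ m, m < k
      · have hm2 : ∃ m < k, ∀ m', m < m' → ¬ m' < k := by
          by_contra hcon
          push Not at hcon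
          exact hlim ⟨hm, fun m hmk => hcon m hmk⟩
        obtain ⟨m, hmk, hm3⟩ := hm2
        have hsub : {x | ∃ i ≤ k, x ∈ Vh D s j i} ⊆ {x | ∃ i ≤ m, x ∈ Vh D s j i} ∪ V s k j := by
          rintro x ⟨i, hi, hx⟩
          rcases lt_or_eq_of_le hi with hlt | heq
          · left
            exact ⟨i, le_of_not_gt (fun hh => hm3 i hh hlt), hx⟩
          · subst heq
            rcases hx with hx | ⟨hx, _⟩
            · exact Or.inr hx
            · exact absurd hx hlim
        have hmem := Filter.mem_of_superset hI hsub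
        rcases Ultrafilter.union_mem_iff.1 hmem with h1 | h1
        · exact ih m hmk (hmk.trans hk) h1
        · exact hV h1
      · refine hV (Filter.mem_of_superset hI ?_)
        rintro x ⟨i, hi, hx⟩
        have heq : i = k := by
          rcases lt_or_eq_of_le hi with hlt | heq
          · exact absurd ⟨i, hlt⟩ hm
          · exact heq
        subst heq
        rcases hx with hx | ⟨hx, _⟩
        · exact hx
        · exact absurd hx hlim

theorem fam [NoMaxOrder W] (hN : #N ≤ ℵ₁) (hU : ∀ z, U z = Body D U z) : Fam U := by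
  refine ⟨fun x => U_self hU x, fun x y hy => U_le hU hy, fun x => U_small hN hU x, ?_⟩
  intro F z₀ hz₀
  obtain ⟨z, hz, hmin'⟩ := (wellFounded_lt (α := W)).has_min {z | U z ∈ F} ⟨z₀, hz₀⟩
  have hmin : ∀ y < z, U y ∉ F := fun y hy hyF => hmin' y hyF hy
  have hz : U z ∈ F := hz
  by_cases hleg : ∃ l s j, D.pi l s j = z ∧ Legit D U l s j
  · obtain ⟨l, s, j, rfl, h⟩ := hleg
    have hT : ∀ k < l, Tl D l s j k ∈ F := by
      intro k hk
      have hsub : U (D.pi l s j) ⊆ {x | ∃ i ≤ k, x ∈ Vh D s j i} ∪ Tl D l s j k := by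
        intro x hx
        rw [U_legit hU h] at hx
        rcases hx with hx | ⟨i, hi, hx⟩
        · exact Or.inr (Or.inl hx)
        · rcases le_or_gt i k with h1 | h1
          · exact Or.inl ⟨i, h1, hx⟩
          · exact Or.inr (Or.inr ⟨i, h1, hi, hx⟩)
      have hmem := Filter.mem_of_superset hz hsub
      rcases Ultrafilter.union_mem_iff.1 hmem with h1 | h1
      · exact absurd h1 (B5x_I hU h F hmin k hk)
      · exact h1
    refine ⟨D.pi l s j, fun y => ?_⟩
    obtain ⟨w, hw⟩ := exists_gt (max y (D.pi l s j))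
    have hyw : y < w := lt_of_le_of_lt (le_max_left _ _) hw
    have hzw : D.pi l s j < w := lt_of_le_of_lt (le_max_right _ _) hw
    obtain ⟨k, hk, hdec⟩ := dec_of_ss hU w (fun l s j h _ => ss_all hU h) l s j h hzw y hyw
    have hzT : D.pi l s j ∈ Tl D l s j k := Or.inl rfl
    rcases hdec with hd | hd
    · exact ⟨fun _ => hd hzT, fun _ => Filter.mem_of_superset (hT k hk) hd⟩
    · refine ⟨fun hyF => ?_, fun hzy => absurd hzy (hd _ hzT)⟩
      exfalso
      have hint : U y ∩ Tl D l s j k ∈ F := Filter.inter_mem hyF (hT k hk)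
      obtain ⟨x, hx1, hx2⟩ := F.nonempty_of_mem hint
      exact hd x hx2 hx1
  · have hiso : U z = {z} := U_iso hU (fun l s j hp hl => hleg ⟨l, s, j, hp, hl⟩)
    rw [hiso] at hz
    refine ⟨z, fun y => ⟨fun hyF => ?_, fun hzy => ?_⟩⟩
    · obtain ⟨x, hx1, hx2⟩ := F.nonempty_of_mem (Filter.inter_mem hyF hz)
      have hx2' : x = z := hx2
      rw [← hx2']
      exact hx1
    · refine Filter.mem_of_superset hz ?_
      intro x hx
      have hx' : x = z := hx
      rw [hx']
      exact hzy

end Pool.Agent.H732.CP
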