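import Pool.Agent.H732.CP.A1
import Pool.Agent.H732.CP.A2

/-!
TASK B6 (helper161).  Existence of good sequences of length `ω₁` (the heart of the construction).
-/

set_option autoImplicit false

namespace Pool.Agent.H732.CP

open Set Cardinal Order

namespace B6x

theorem aleph0_le_ka : ℵ₀ ≤ succ (succ nu) :=
  (aleph0_le_aleph 1).trans (aleph_one_lt_nu.le.trans ((le_succ nu).trans (le_succ (succ nu))))

theorem aleph_one_lt_ka : ℵ₁ < succ (succ nu) :=
  aleph_one_lt_nu.trans_le ((le_succ nu).trans (le_succ (succ nu)))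

theorem fun_lt {I X : Type} [Nonempty X] (hI : #I ≤ ℵ₁) (hX : #X < succ (succ nu)) :
    #(I → X) < succ (succ nu) := by
  rw [← power_def]
  refine lt_of_le_of_lt (power_le_power_left ?_ hI) (lt_ka_pow _ hX)
  exact mk_ne_zero X

/-- the number of the sequences with values in a small set -/
theorem seq_lt {N X : Type} (hN : #N ≤ ℵ₁) (hX : #X < succ (succ nu)) :
    #(N × (N → ℕ → N → Option X)) < succ (succ nu) := by
  have h0 : #(Option X) < succ (succ nu) := by
    rw [mk_option]
    exact add_lt_of_lt aleph0_le_ka hX (one_lt_aleph0.trans_le aleph0_le_ka)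
  have hω : #ℕ ≤ ℵ₁ := by
    rw [mk_nat]
    exact aleph0_le_aleph 1
  have h1 : #(N → Option X) < succ (succ nu) := fun_lt hN h0
  have h2 : #(ℕ → N → Option X) < succ (succ nu) := fun_lt hω h1
  have h3 : #(N → ℕ → N → Option X) < succ (succ nu) := fun_lt hN h2
  rw [mk_prod, lift_id, lift_id]
  exact mul_lt_of_lt aleph0_le_ka (hN.trans_lt aleph_one_lt_ka) h3

/-- the block with the enumeration `e` -/
def Bk {N W : Type} (e : ℕ → N → Option W) : Set W := {x | ∃ j m, e j m = some x}

theorem mk_Bk {N W : Type} (hN : #N ≤ ℵ₁) (e : ℕ → N → Option W) : #(Bk e) ≤ ℵ₁ := by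
  have h : ∀ x : Bk e, ∃ p : ℕ × N, e p.1 p.2 = some x.1 := fun ⟨x, j, m, h⟩ => ⟨(j, m), h⟩
  choose f hf using h
  have hinj : Function.Injective f := by
    intro x y hxy
    have h1 := hf x
    rw [hxy, hf y] at h1
    exact Subtype.ext (Option.some.inj h1).symm
  refine (mk_le_of_injective hinj).trans ?_
  rw [mk_prod, lift_id, lift_id, mk_nat]
  exact (mul_le_mul' (aleph0_le_aleph 1) hN).trans (mul_eq_self (aleph0_le_aleph 1)).le

section main

set_option linter.unusedSectionVars false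

variable {N W Co : Type} [LinearOrder N] [LinearOrder W]

/-- the candidates for the block at the position `k` -/
def E (D : Dat N W Co) (T : Set W) (en : W → ℕ → N → Option W) (k : N) (s : Sq N W) : Set W :=
  {β | β ∈ T ∧ (∀ i, ∀ x ∈ Bk (en β), D.pi k s i < x) ∧
    ∀ k' < k, ∀ x ∈ VV s k', ∀ y ∈ Bk (en β), x < y ∧ D.col x y = D.code k' (tr s k') y}

theorem key (hW : Reg W (succ (succ nu))) (hN : #N ≤ ℵ₁) (D : Dat N W Co) (hD : SCol D.col)
    (T : Set W) (en : W → ℕ → N → Option W)
    (hen : ∀ δ ∈ T, ∀ j m x, en δ j m = some x → δ ≤ x) (k : N) (s : Sq N W) :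
    ∃ δ, ∀ β ∈ E D T en k s, δ ≤ β → ∀ φ : W → Co, ∃ α ∈ E D T en k s, α < δ ∧
      ∀ x ∈ Bk (en α), x < β ∧ ∀ y ∈ Bk (en β), D.col x y = φ y := by
  by_cases hu : Unb (E D T en k s)
  · exact hD (fun δ => Bk (en δ)) (E D T en k s) (fun δ => mk_Bk hN _) hu (by
      rintro δ hδ x ⟨j, m, hx⟩
      exact hen δ hδ.1 j m x hx)
  · unfold Unb at hu
    push Not at hu
    obtain ⟨a, ha⟩ := hu
    obtain ⟨δ, hδ⟩ := hW.bdd (A := {a}) (by
      rw [mk_singleton]
      exact one_lt_aleph0.trans_le aleph0_le_ka)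
    refine ⟨δ, fun β hβ h => ?_⟩
    exact absurd (hδ a rfl) (not_lt.2 (h.trans (ha β hβ)))

open Classical in
/-- the sequence of the blocks `d i`, `i < k` -/
noncomputable def sqq (en : W → ℕ → N → Option W) (d : N → W) (k : N) : Sq N W :=
  fun i j m => if i < k then en (d i) j m else none

theorem tr_sqq (en : W → ℕ → N → Option W) (d : N → W) {k k' : N} (h : k' ≤ k) :
    tr (sqq en d k) k' = sqq en d k' := by
  funext i j m
  unfold tr sqq
  by_cases h1 : i < k'
  · rw [if_pos h1, if_pos (h1.trans_le h), if_pos h1]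
  · rw [if_neg h1, if_neg h1]

theorem VV_sqq (en : W → ℕ → N → Option W) (d : N → W) {k k' : N} (h : k' < k) :
    VV (sqq en d k) k' = Bk (en (d k')) := by
  ext x
  simp only [VV, V, Bk, sqq, mem_ofPred_eq, if_pos h]

end main

end B6x

open B6x in
theorem good_ex {N W Co : Type} [LinearOrder N] [WellFoundedLT N] [OrderTop N] [LinearOrder W]
    [WellFoundedLT W] (hW : Reg W (succ (succ nu))) (hN : #N ≤ ℵ₁)
    (hN1 : ∀ k : N, k < ⊤ → (Iio k).Countable) (D : Dat N W Co) (hD : SCol D.col)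
    (T : Set W) (hT : Unb T) (en : W → ℕ → N → Option W)
    (hen : ∀ δ ∈ T, ∀ j m x, en δ j m = some x → δ ≤ x) :
    ∃ (d : N → W) (s : Sq N W), (∀ k < ⊤, d k ∈ T) ∧ tr s ⊤ = s ∧ (∀ k < ⊤, s k = en (d k)) ∧
      (∀ k k', k < k' → k' < ⊤ → ∀ x ∈ VV s k, ∀ y ∈ VV s k',
        x < y ∧ D.col x y = D.code k (tr s k) y) ∧
      ∀ k < ⊤, ∀ i, ∀ x ∈ VV s k, D.pi k (tr s k) i < x := by
  classical
  choose dl hdl using key hW hN D hD T en hen
  -- the closure function
  have hg : ∀ β : W, ∃ γ : W, (∀ (k : N) (s : Sq N W), (∀ i j m x, s i j m = some x → x < β) →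
      dl k s < γ ∧ ∀ i, D.pi k s i < γ) ∧ ∀ x ∈ Bk (en β), x < γ := by
    intro β
    have hβ : #(Iio β) < succ (succ nu) := hW.iio β
    have h1 := seq_lt hN hβ
    let em : (N → ℕ → N → Option (Iio β)) → Sq N W := fun s i j m => (s i j m).map Subtype.val
    have h2 : #(range (fun p : N × (N → ℕ → N → Option (Iio β)) => dl p.1 (em p.2))) <
        succ (succ nu) := mk_range_le.trans_lt h1
    have h3 : #((N × (N → ℕ → N → Option (Iio β))) × ℕ) < succ (succ nu) := by
      rw [mk_prod, lift_id, lift_id]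
      refine mul_lt_of_lt aleph0_le_ka h1 ?_
      rw [mk_nat]
      exact (aleph0_le_aleph 1).trans_lt aleph_one_lt_ka
    have h4 : #(range (fun p : (N × (N → ℕ → N → Option (Iio β))) × ℕ =>
        D.pi p.1.1 (em p.1.2) p.2)) < succ (succ nu) := mk_range_le.trans_lt h3
    have h5 : #(Bk (en β)) < succ (succ nu) := (mk_Bk hN _).trans_lt aleph_one_lt_ka
    obtain ⟨x1, hx1⟩ := hW.bdd h2
    obtain ⟨x2, hx2⟩ := hW.bdd h4
    obtain ⟨x3, hx3⟩ := hW.bdd h5
    refine ⟨max x1 (max x2 x3), ?_, ?_⟩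
    · intro k s hs
      obtain ⟨s', hs'⟩ : ∃ s' : N → ℕ → N → Option (Iio β), em s' = s := by
        refine ⟨fun i j m => match h : s i j m with
          | none => none
          | some x => some ⟨x, hs i j m x h⟩, ?_⟩
        funext i j m
        simp only [em]
        split
        · rename_i h
          rw [h]
          rfl
        · rename_i x h
          exact h.symm
      constructor
      · refine lt_of_lt_of_le (hx1 _ ⟨(k, s'), ?_⟩) (le_max_left _ _)
        simp only [hs']
      · intro i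
        refine lt_of_lt_of_le (hx2 _ ⟨((k, s'), i), ?_⟩) ((le_max_left _ _).trans (le_max_right _ _))
        simp only [hs']
    · intro x hx
      exact lt_of_lt_of_le (hx3 x hx) ((le_max_right _ _).trans (le_max_right _ _))
  choose g hg1 hg2 using hg
  -- the closure point
  have hcl := clo hW (c := succ ℵ₁) (isRegular_succ (aleph0_le_aleph 1)) (by
    refine lt_of_le_of_lt (succ_le_of_lt aleph_one_lt_nu) ?_
    exact (lt_succ nu).trans (lt_succ (succ nu)))
  obtain ⟨b0, hb0, -⟩ : ∃ b0 ∈ T, True := by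
    obtain ⟨a0, -⟩ := hW.bdd (A := (∅ : Set W)) (by
      rw [mk_eq_zero]
      exact aleph0_pos.trans_le aleph0_le_ka)
    obtain ⟨b0, h1, -⟩ := hT a0
    exact ⟨b0, h1, trivial⟩
  obtain ⟨dp, hdp, -, hdg⟩ := hcl g b0
  obtain ⟨b, hbT, hb⟩ := hT dp
  have hbA : ∀ y ∈ Bk (en b), b ≤ y := by
    rintro y ⟨j, m, hy⟩
    exact hen b hbT j m y hy
  -- the recursion
  let Φ : N → Sq N W → W → Prop := fun k s α => α ∈ E D T en k s ∧ α < dp ∧
    ∀ x ∈ Bk (en α), ∀ y ∈ Bk (en b), x < y ∧ D.col x y = D.code k s y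
  let F : ∀ k : N, (∀ i, i < k → W) → W := fun k ih =>
    if h : ∃ α, Φ k (fun i j m => if hi : i < k then en (ih i hi) j m else none) α then h.choose
    else b
  let d : N → W := WellFounded.fix (r := fun a b : N => a < b) wellFounded_lt F
  have hd : ∀ k, (∃ α, Φ k (sqq en d k) α) → Φ k (sqq en d k) (d k) := by
    intro k h
    have h1 : d k = F k (fun i _ => d i) := WellFounded.fix_eq _ _ _
    have h2 : (fun (i : N) (j : ℕ) (m : N) => if hi : i < k then en ((fun i _ => d i) i hi) j m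
        else none) = sqq en d k := by
      funext i j m
      unfold sqq
      by_cases hi : i < k
      · rw [dif_pos hi, if_pos hi]
      · rw [dif_neg hi, if_neg hi]
    have h3 : ∃ α, Φ k (fun (i : N) (j : ℕ) (m : N) =>
        if hi : i < k then en ((fun i _ => d i) i hi) j m else none) α := by
      rw [h2]
      exact h
    have h4 : F k (fun i _ => d i) = h3.choose := dif_pos h3
    have h5 := h3.choose_spec
    rw [← h4, ← h1] at h5
    rw [h2] at h5
    exact h5
  have main : ∀ k : N, k < ⊤ → Φ k (sqq en d k) (d k) := by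
    intro k
    induction k using WellFoundedLT.induction with
    | ind k ih =>
    intro hk
    apply hd
    -- a bound of the values of the sequence
    obtain ⟨β, hβ, hβ'⟩ := hdp ((fun i => g (d i)) '' Iio k) (by
        have h1 : #((fun i => g (d i)) '' Iio k) ≤ ℵ₀ :=
          le_aleph0_iff_set_countable.2 ((hN1 k hk).image _)
        exact h1.trans_lt ((aleph0_lt_aleph_one).trans (lt_succ _))) (by
      rintro _ ⟨i, hi, rfl⟩
      exact hdg _ (ih i hi (hi.trans hk)).2.1)
    have hval : ∀ i j m x, sqq en d k i j m = some x → x < β := by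
      intro i j m x h
      unfold sqq at h
      by_cases hi : i < k
      · rw [if_pos hi] at h
        exact (hg2 (d i) x ⟨j, m, h⟩).trans (hβ' _ ⟨i, hi, rfl⟩)
      · rw [if_neg hi] at h
        exact absurd h (by simp)
    obtain ⟨hd1, hd2⟩ := hg1 β k (sqq en d k) hval
    have hgβ := hdg β hβ
    have hbE : b ∈ E D T en k (sqq en d k) := by
      refine ⟨hbT, fun i x hx => ?_, fun k' hk' x hx y hy => ?_⟩
      · exact (((hd2 i).trans hgβ).trans hb).trans_le (hbA x hx)
      · rw [tr_sqq en d hk'.le]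
        rw [VV_sqq en d hk'] at hx
        exact (ih k' hk' (hk'.trans hk)).2.2 x hx y hy
    obtain ⟨α, hα, hαδ, hα'⟩ := hdl k (sqq en d k) b hbE ((hd1.trans hgβ).trans hb).le
      (D.code k (sqq en d k))
    exact ⟨α, hα, hαδ.trans (hd1.trans hgβ), fun x hx y hy =>
      ⟨(hα' x hx).1.trans_le (hbA y hy), (hα' x hx).2 y hy⟩⟩
  refine ⟨d, sqq en d ⊤, fun k hk => (main k hk).1.1, tr_sqq en d le_rfl, fun k hk => ?_,
    fun k k' hkk hk' x hx y hy => ?_, fun k hk i x hx => ?_⟩
  · funext j m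
    unfold sqq
    rw [if_pos hk]
  · rw [VV_sqq en d hk'] at hy
    rw [VV_sqq en d (hkk.trans hk')] at hx
    rw [tr_sqq en d (hkk.trans hk').le]
    have h1 := (main k' hk').1.2.2 k hkk x (by rw [VV_sqq en d hkk]; exact hx) y hy
    rw [tr_sqq en d hkk.le] at h1
    exact h1
  · rw [VV_sqq en d hk] at hx
    rw [tr_sqq en d hk.le]
    exact (main k hk).1.2.1 i x hx

end Pool.Agent.H732.CP
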