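import Pool.Agent.H732.CP.B2
import Pool.Agent.H732.CP.B6

/-!
TASK B7.  From good sequences to `Hit`.

Given `n, z, S, γ, R` as in `Hit`.  Let `Dz δ := {x | ∃ i < n, x ∈ U (z δ i)}` (size `≤ ℵ₁`, bounded in
`W`).  Pick `δ₀ ∈ S` and let `T` be the set of `δ ∈ S` larger than `γ`, `δ₀` and all elements of `Dz δ₀`
(unbounded, `Reg.bdd`).  For `δ ∈ T`, `i < n` put
`Vb δ i := U (z δ i) \ ⋃_{f ∈ F δ i} U f`, `F δ i := {z δ i' | i' < i} ∪ {z δ₀ i' | i' < n}` (a Finset; all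
its elements are `< z δ i`: `z δ₀ i' ∈ Dz δ₀` is `< δ ≤ z δ 0 ≤ z δ i`), and `Vb δ i := ∅` for `i ≥ n`.
Facts: `z δ i ∈ Vb δ i` (because `U f` has only elements `≤ f < z δ i`); the `Vb δ i` are pairwise
disjoint for fixed `δ`; every element `x` of `Vb δ i` is `≥ δ` (if `x < δ` then
`x ∈ R ⊆ Dz δ₀`, contradiction).  Choose enumerations `en δ i : N → Option W` with
`{x | ∃ m, en δ i m = some x} = Vb δ i` (possible: `#(Vb δ i) ≤ ℵ₁ = #N`; for `δ ∉ T` take `none`).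
`good_ex` gives `d, s`.  Then `V s k i = Vb (d k) i` for `k < ⊤`, and `Legit D U ⊤ s j` holds for
`j < n` (all fields).  Put `x j := D.pi ⊤ s j`.  By `U_legit`, `U (x j)` consists of `x j`, the
`V s k j` and the `D.pi k (tr s k) j` with `Lim k`, `k < ⊤`.  All elements are `> γ`
(`δ > γ` for `δ ∈ T`).  Disjointness for `j ≠ j'` (`< n`): two elements of `V s k j` and `V s k' j'`: `good` for `k ≠ k'`,
`disj` for `k = k'`; `D.pi k (tr s k) j` against `y ∈ V s k' j'`: if `k' < k`, `y <` it by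
`D.pi_gt` (values of `tr s k`); if `k' = k`, `>` by `gap`; if `k < k'`: it is `<` an element of
`V s k j` (`gap`), which is `< y`; two names: `D.pi_inj`.  `Q := {d k | k < ⊤}`; it is uncountable
because `d` is injective on `Iio ⊤` (`z (d k) 0 ∈ VV s k`, and the `VV s k` are pairwise disjoint by
`good`) and `Iio ⊤` is uncountable; `z (d k) i ∈ V s k i ⊆ U (x i)`.
-/

set_option autoImplicit false

namespace Pool.Agent.H732.CP

open Set Cardinal Order

/-- enumerations of sets of size at most `#N` -/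
theorem B7x_enum {N W : Type} (B : Set W) (h : #B ≤ #N) :
    ∃ e : N → Option W, {x | ∃ m, e m = some x} = B := by
  classical
  obtain ⟨f⟩ := h
  refine ⟨fun m => if h : ∃ b : B, f b = m then some (h.choose : W) else none, ?_⟩
  ext x
  simp only [Set.mem_ofPred_eq]
  constructor
  · rintro ⟨m, hm⟩
    by_cases h : ∃ b : B, f b = m
    · rw [dif_pos h] at hm
      have h1 : (h.choose : W) = x := by simpa using hm
      rw [← h1]
      exact h.choose.2
    · rw [dif_neg h] at hm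
      exact absurd hm (by simp)
  · intro hx
    have h : ∃ b : B, f b = f ⟨x, hx⟩ := ⟨⟨x, hx⟩, rfl⟩
    refine ⟨f ⟨x, hx⟩, ?_⟩
    rw [dif_pos h]
    have h1 : h.choose = ⟨x, hx⟩ := f.injective h.choose_spec
    rw [h1]

theorem hit {N W Co : Type} [LinearOrder N] [WellFoundedLT N] [OrderTop N] [LinearOrder W]
    [WellFoundedLT W] (hW : Reg W (succ (succ nu))) (hN : #N = ℵ₁)
    (hN1 : ∀ k : N, k < ⊤ → (Iio k).Countable) (hN2 : ¬ (Iio (⊤ : N)).Countable)
    (hN3 : Lim (⊤ : N)) (D : Dat N W Co) (hD : SCol D.col) {U : W → Set W}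
    (hU : ∀ z, U z = Body D U z) : Hit U := by
  classical
  intro n z S γ R hn hS hz hR
  obtain ⟨δ₀, hδ₀, hγ⟩ := hS γ
  -- monotonicity of `z δ`
  have hzle : ∀ δ ∈ S, ∀ i i', i ≤ i' → i' < n → z δ i ≤ z δ i' := by
    intro δ hδ i i' h h'
    rcases h.lt_or_eq with h | h
    · exact ((hz δ hδ).2 i i' h h').le
    · rw [h]
  set b : W := z δ₀ (n - 1) with hb
  have hγb : γ < b := hγ.trans_le (((hz δ₀ hδ₀).1).trans (hzle δ₀ hδ₀ 0 (n - 1) (by omega)
    (by omega)))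
  have hb' : ∀ i < n, z δ₀ i ≤ b := fun i hi => hzle δ₀ hδ₀ i (n - 1) (by omega) (by omega)
  set T : Set W := {δ | δ ∈ S ∧ b < δ} with hTdef
  have hT : Unb T := by
    intro a
    obtain ⟨d, hd, h⟩ := hS (max a b)
    exact ⟨d, ⟨hd, (le_max_right a b).trans_lt h⟩, (le_max_left a b).trans_lt h⟩
  -- the blocks
  set F : W → ℕ → Finset W := fun δ i =>
    (Finset.range i).image (z δ) ∪ (Finset.range n).image (z δ₀) with hF
  set Vb : W → ℕ → Set W := fun δ i =>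
    {x | (δ ∈ T ∧ i < n) ∧ x ∈ U (z δ i) ∧ ∀ f ∈ F δ i, x ∉ U f} with hVb
  have hFlt : ∀ δ ∈ T, ∀ i < n, ∀ f ∈ F δ i, f < z δ i := by
    intro δ hδ i hi f hf
    simp only [hF, Finset.mem_union, Finset.mem_image, Finset.mem_range] at hf
    rcases hf with ⟨i', hi', rfl⟩ | ⟨i', hi', rfl⟩
    · exact (hz δ hδ.1).2 i' i hi' hi
    · exact (hb' i' hi').trans_lt (hδ.2.trans_le ((hz δ hδ.1).1.trans
        (hzle δ hδ.1 0 i (by omega) hi)))
  have hzVb : ∀ δ ∈ T, ∀ i < n, z δ i ∈ Vb δ i := by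
    intro δ hδ i hi
    refine ⟨⟨hδ, hi⟩, U_self hU _, fun f hf h => ?_⟩
    exact absurd (U_le hU h) (not_le.2 (hFlt δ hδ i hi f hf))
  have hVbdisj : ∀ δ i i', i < i' → ∀ x ∈ Vb δ i, x ∉ Vb δ i' := by
    intro δ i i' h x hx hx'
    apply hx'.2.2 (z δ i) _ hx.2.1
    simp only [hF, Finset.mem_union, Finset.mem_image, Finset.mem_range]
    exact Or.inl ⟨i, h, rfl⟩
  have hVble : ∀ δ i, ∀ x ∈ Vb δ i, δ ≤ x := by
    intro δ i x hx
    by_contra hlt
    have hlt' : x < δ := not_le.1 hlt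
    have h1 : x ∈ R := by
      rw [← hR δ hx.1.1.1]
      exact ⟨hlt', i, hx.1.2, hx.2.1⟩
    rw [← hR δ₀ hδ₀] at h1
    obtain ⟨-, i', hi', h2⟩ := h1
    apply hx.2.2 (z δ₀ i') _ h2
    simp only [hF, Finset.mem_union, Finset.mem_image, Finset.mem_range]
    exact Or.inr ⟨i', hi', rfl⟩
  have hen0 : ∀ δ i, ∃ e : N → Option W, {x | ∃ m, e m = some x} = Vb δ i := by
    intro δ i
    apply B7x_enum
    rw [hN]
    refine le_trans ?_ (U_small (le_of_eq hN) hU (z δ i))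
    exact Cardinal.mk_le_mk_of_subset (fun x hx => hx.2.1)
  choose en hen using hen0
  have hen' : ∀ δ ∈ T, ∀ j m x, en δ j m = some x → δ ≤ x := by
    intro δ _ j m x hx
    apply hVble δ j x
    rw [← hen δ j]
    exact ⟨m, hx⟩
  obtain ⟨d, s, hdT, htr, hsk, hgood, hgap⟩ := good_ex hW (le_of_eq hN) hN1 D hD T hT en hen'
  have hV : ∀ k < (⊤ : N), ∀ i, V s k i = Vb (d k) i := by
    intro k hk i
    rw [← hen (d k) i]
    unfold V
    rw [hsk k hk]
  have hzV : ∀ k < (⊤ : N), ∀ i < n, z (d k) i ∈ V s k i := by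
    intro k hk i hi
    rw [hV k hk i]
    exact hzVb (d k) (hdT k hk) i hi
  have hdisj : ∀ k < (⊤ : N), ∀ i i', i ≠ i' → ∀ x ∈ V s k i, x ∉ V s k i' := by
    intro k hk i i' hne x hx hx'
    rw [hV k hk] at hx hx'
    rcases lt_or_gt_of_ne hne with h | h
    · exact hVbdisj _ _ _ h x hx hx'
    · exact hVbdisj _ _ _ h x hx' hx
  have hleg : ∀ j < n, Legit D U ⊤ s j := by
    intro j hj
    refine ⟨hN3, htr, ?_, hgood, hdisj, fun k hk _ => hgap k hk, ?_⟩
    · intro k hk i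
      by_cases hi : i < n
      · right
        refine ⟨z (d k) i, hzV k hk i hi, F (d k) i, hFlt (d k) (hdT k hk) i hi, ?_⟩
        rw [hV k hk i]
        ext x
        simp only [hVb, Set.mem_ofPred_eq, Set.mem_sdiff, not_exists, not_and]
        constructor
        · rintro ⟨-, h1, h2⟩
          exact ⟨h1, h2⟩
        · rintro ⟨h1, h2⟩
          exact ⟨⟨hdT k hk, hi⟩, h1, h2⟩
      · left
        rw [hV k hk i]
        ext x
        simp only [hVb, Set.mem_ofPred_eq, Set.mem_empty_iff_false, iff_false]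
        rintro ⟨⟨-, h⟩, -⟩
        exact hi h
    · intro k hk
      exact ⟨_, hzV k hk j hj⟩
  -- elements of blocks are not names
  have hpi_top : ∀ k i y i', y ∈ V s k i → y < D.pi ⊤ s i' := fun k i y i' hy =>
    D.pi_gt ⊤ s i' k i y hy
  have hnot : ∀ k < (⊤ : N), ∀ k' < (⊤ : N), Lim k' → ∀ i i', ∀ y ∈ V s k i,
      y ≠ D.pi k' (tr s k') i' := by
    intro k hk k' hk' hl i i' y hy he
    rcases lt_trichotomy k k' with h | h | h
    · have h1 : y ∈ V (tr s k') k i := by rw [V_tr s h]; exact hy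
      have h2 := D.pi_gt k' (tr s k') i' k i y h1
      rw [← he] at h2
      exact lt_irrefl _ h2
    · subst h
      have h2 := hgap k hk i' y ⟨i, hy⟩
      rw [← he] at h2
      exact lt_irrefl _ h2
    · have h1 := hgap k' hk' i' _ ⟨0, hzV k' hk' 0 hn⟩
      have h2 := (hgood k' k h hk _ ⟨0, hzV k' hk' 0 hn⟩ y ⟨i, hy⟩).1
      rw [← he] at h1
      exact lt_irrefl _ (h1.trans h2)
  have hne' : ∀ k < (⊤ : N), ∀ k' < (⊤ : N), ∀ i i', i ≠ i' → ∀ y ∈ V s k i, y ∉ V s k' i' := by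
    intro k hk k' hk' i i' hii y hy hy'
    rcases lt_trichotomy k k' with h | h | h
    · exact lt_irrefl _ (hgood k k' h hk' y ⟨i, hy⟩ y ⟨i', hy'⟩).1
    · subst h
      exact hdisj k hk i i' hii y hy hy'
    · exact lt_irrefl _ (hgood k' k h hk y ⟨i', hy'⟩ y ⟨i, hy⟩).1
  have hUx : ∀ j < n, ∀ y, y ∈ U (D.pi ⊤ s j) ↔ (y = D.pi ⊤ s j ∨
      ∃ k < (⊤ : N), y ∈ V s k j ∨ (Lim k ∧ y = D.pi k (tr s k) j)) := by
    intro j hj y
    rw [U_legit hU (hleg j hj)]
    rfl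
  have hdinj : InjOn d (Iio ⊤) := by
    intro k hk k' hk' he
    by_contra hne
    have h1 := hzV k hk 0 hn
    have h2 := hzV k' hk' 0 hn
    rw [← he] at h2
    rcases lt_or_gt_of_ne hne with h | h
    · exact lt_irrefl _ (hgood k k' h hk' _ ⟨0, h1⟩ _ ⟨0, h2⟩).1
    · exact lt_irrefl _ (hgood k' k h hk _ ⟨0, h2⟩ _ ⟨0, h1⟩).1
  refine ⟨d '' (Iio ⊤), ?_, ?_, fun j => D.pi ⊤ s j, ?_, ?_, ?_⟩
  · rintro _ ⟨k, hk, rfl⟩
    exact (hdT k hk).1
  · intro hc
    exact hN2 (Set.countable_of_injective_of_countable_image hdinj hc)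
  · intro i hi y hy
    rw [hUx i hi] at hy
    have hge : ∀ k < (⊤ : N), ∀ v ∈ V s k i, γ < v := by
      intro k hk v hv
      rw [hV k hk] at hv
      exact hγb.trans ((hdT k hk).2.trans_le (hVble _ _ v hv))
    rcases hy with rfl | ⟨k, hk, hy | ⟨hl, rfl⟩⟩
    · obtain ⟨m, hm⟩ := hN3.1
      exact (hge m hm _ (hzV m hm i hi)).trans (hpi_top m i _ i (hzV m hm i hi))
    · exact hge k hk y hy
    · obtain ⟨m, hm⟩ := hl.1
      have hm' := hm.trans hk
      refine (hge m hm' _ (hzV m hm' i hi)).trans ?_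
      apply D.pi_gt k (tr s k) i m i
      rw [V_tr s hm]
      exact hzV m hm' i hi
  · intro i hi i' hi' hii y hy hy'
    rw [hUx i hi] at hy
    rw [hUx i' hi'] at hy'
    rcases hy with rfl | ⟨k, hk, hy | ⟨hl, rfl⟩⟩
    · rcases hy' with hy' | ⟨k', hk', hy' | ⟨hl', hy'⟩⟩
      · exact hii (D.pi_inj _ _ _ _ _ _ hy').2.2
      · exact lt_irrefl _ (hpi_top k' i' _ i hy')
      · exact absurd (D.pi_inj _ _ _ _ _ _ hy').1 hk'.ne'
    · rcases hy' with rfl | ⟨k', hk', hy' | ⟨hl', hy'⟩⟩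
      · exact lt_irrefl _ (hpi_top k i _ i' hy)
      · exact hne' k hk k' hk' i i' hii y hy hy'
      · exact hnot k hk k' hk' hl' i i' y hy hy'
    · rcases hy' with hy' | ⟨k', hk', hy' | ⟨hl', hy'⟩⟩
      · exact absurd (D.pi_inj _ _ _ _ _ _ hy').1 hk.ne
      · exact hnot k' hk' k hk hl i' i _ hy' rfl
      · exact hii (D.pi_inj _ _ _ _ _ _ hy').2.2
  · rintro _ ⟨k, hk, rfl⟩ i hi
    show z (d k) i ∈ U (D.pi ⊤ s i)
    rw [hUx i hi]
    exact Or.inr ⟨k, hk, Or.inl (hzV k hk i hi)⟩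

end Pool.Agent.H732.CP
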