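import Pool.Agent.H732.CP.Defs

/-!
TASK B8.  The topological space on `Option W` (`none` is the point at infinity).

Let `e : Option W → (W → Bool)`, `e none = fun _ => false`, `e (some x) = fun y => decide (x ∈ U y)`, and
let `t` be the topology induced by `e` from the product of discrete spaces.
* T2: `e` is injective (coordinate `y = x` for `x < x'`: `x ∈ U x` and `x' ∉ U x`; `none` and `some x`:
  `y = x`).
* compact: ultrafilters and `Fam.conv`.
* scattered: take the least `x` with `some x ∈ s` and `O = some '' U x`.
* `some '' U y = {u | e u y = true}` is clopen.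
-/

set_option autoImplicit false

namespace Pool.Agent.H732.CP

open Set

namespace B8x

variable {W : Type}

open Classical in
/-- the embedding into the product -/
noncomputable def emb (U : W → Set W) (u : Option W) (y : W) : Bool := decide (u ∈ some '' U y)

theorem emb_true {U : W → Set W} {u : Option W} {y : W} :
    emb U u y = true ↔ u ∈ some '' U y := by
  classical
  unfold emb
  rw [decide_eq_true_eq]

theorem emb_inj [LinearOrder W] {U : W → Set W} (hF : Fam U) : Function.Injective (emb U) := by
  intro u v huv
  have h1 : ∀ y, u ∈ some '' U y ↔ v ∈ some '' U y := by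
    intro y
    rw [← emb_true, ← emb_true, huv]
  rcases u with _ | x <;> rcases v with _ | x'
  · rfl
  · obtain ⟨a, -, ha⟩ := (h1 x').2 ⟨x', hF.self x', rfl⟩
    exact absurd ha (by simp)
  · obtain ⟨a, -, ha⟩ := (h1 x).1 ⟨x, hF.self x, rfl⟩
    exact absurd ha (by simp)
  · obtain ⟨a, ha, ha'⟩ := (h1 x').2 ⟨x', hF.self x', rfl⟩
    obtain ⟨b, hb, hb'⟩ := (h1 x).1 ⟨x, hF.self x, rfl⟩
    rw [Option.some.injEq] at ha' hb'
    subst ha' hb'
    rw [le_antisymm (hF.le _ _ ha) (hF.le _ _ hb)]

end B8x

open B8x

theorem space {W : Type} [LinearOrder W] [WellFoundedLT W] {U : W → Set W} (hF : Fam U) :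
    ∃ t : TopologicalSpace (Option W), @T2Space _ t ∧ @CompactSpace _ t ∧
      (∀ s : Set (Option W), s.Nonempty → ∃ x ∈ s, ∃ O : Set (Option W),
        @IsOpen _ t O ∧ O ∩ s = {x}) ∧
      ∀ y, @IsClopen _ t (some '' U y) := by
  let t : TopologicalSpace (Option W) := TopologicalSpace.induced (emb U) inferInstance
  have hcont : Continuous (emb U) := continuous_induced_dom
  have hclo : ∀ y, IsClopen (some '' U y) := by
    intro y
    have h1 : some '' U y = (fun u => emb U u y) ⁻¹' {true} := by
      ext u
      rw [mem_preimage, mem_singleton_iff, emb_true]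
    rw [h1]
    exact (isClopen_discrete ({true} : Set Bool)).preimage ((continuous_apply y).comp hcont)
  have hconv : ∀ (G : Ultrafilter (Option W)) (u : Option W),
      (∀ y, some '' U y ∈ G ↔ u ∈ some '' U y) → (G : Filter (Option W)) ≤ nhds u := by
    intro G u hG
    have h0 : nhds u = Filter.comap (emb U) (nhds (emb U u)) := nhds_induced _ _
    rw [h0, ← Filter.map_le_iff_le_comap]
    change Filter.Tendsto (emb U) G (nhds (emb U u))
    rw [tendsto_pi_nhds]
    intro y
    rw [nhds_discrete, Filter.tendsto_pure]
    by_cases hy : u ∈ some '' U y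
    · filter_upwards [(hG y).2 hy] with v hv
      rw [emb_true.2 hy, emb_true.2 hv]
    · have h1 : (some '' U y)ᶜ ∈ G := by
        rw [Ultrafilter.compl_mem_iff_notMem]
        exact fun h => hy ((hG y).1 h)
      filter_upwards [h1] with v hv
      rw [Bool.eq_iff_iff, emb_true, emb_true]
      exact ⟨fun h => absurd h hv, fun h => absurd h hy⟩
  refine ⟨t, T2Space.of_injective_continuous (emb_inj hF) hcont, ⟨?_⟩, ?_, hclo⟩
  · rw [isCompact_iff_ultrafilter_le_nhds]
    intro G _
    by_cases hz : ∃ z, some '' U z ∈ G
    · obtain ⟨z, hz⟩ := hz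
      have hr : Set.range (some : W → Option W) ∈ G :=
        Filter.mem_of_superset hz (image_subset_range _ _)
      have hmem : ∀ s : Set W, s ∈ G.comap (Option.some_injective W) hr ↔ some '' s ∈ G :=
        fun s => Ultrafilter.mem_comap G (Option.some_injective W) hr
      obtain ⟨x, hx⟩ := hF.conv (G.comap (Option.some_injective W) hr) z ((hmem _).2 hz)
      refine ⟨some x, mem_univ _, hconv G (some x) fun y => ?_⟩
      rw [← hmem, hx y]
      constructor
      · intro h
        exact ⟨x, h, rfl⟩
      · rintro ⟨a, ha, ha'⟩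
        rw [Option.some.injEq] at ha'
        rwa [← ha']
    · push Not at hz
      refine ⟨none, mem_univ _, hconv G none fun y => ?_⟩
      refine ⟨fun h => absurd h (hz y), ?_⟩
      rintro ⟨a, -, ha⟩
      exact absurd ha (by simp)
  · intro s hs
    by_cases hx : ∃ x, some x ∈ s
    · obtain ⟨x, hxs, hmin⟩ := WellFounded.has_min (wellFounded_lt (α := W)) {x | some x ∈ s} hx
      refine ⟨some x, hxs, some '' U x, (hclo x).isOpen, ?_⟩
      ext u
      rw [mem_inter_iff, mem_singleton_iff]
      constructor
      · rintro ⟨⟨a, ha, rfl⟩, hus⟩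
        rw [le_antisymm (hF.le _ _ ha) (not_lt.1 (hmin a hus))]
      · rintro rfl
        exact ⟨⟨x, hF.self x, rfl⟩, hxs⟩
    · obtain ⟨u, hu⟩ := hs
      have h1 : ∀ v ∈ s, v = none := by
        intro v hv
        rcases v with _ | x
        · rfl
        · exact absurd ⟨x, hv⟩ hx
      refine ⟨u, hu, univ, isOpen_univ, ?_⟩
      rw [univ_inter]
      ext v
      rw [mem_singleton_iff]
      constructor
      · intro hv
        rw [h1 v hv, h1 u hu]
      · rintro rfl
        exact hu

end Pool.Agent.H732.CP
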