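import Pool.Agent.H732.CP.A6
import Pool.Agent.H732.CP.A7
import Pool.Agent.H732.CP.B1
import Pool.Agent.H732.CP.B5
import Pool.Agent.H732.CP.B7
import Pool.Agent.H732.CP.B11

/-! Assembly. -/

set_option autoImplicit false

namespace Pool.Agent.H732.CP

open Set Cardinal Order

theorem reg_nomax {W : Type} [LinearOrder W] {θ : Cardinal.{0}} (h : Reg W θ) : NoMaxOrder W :=
  ⟨fun a => by
    obtain ⟨x, hx⟩ := h.bdd (A := {a}) (by
      rw [mk_singleton]; exact one_lt_aleph0.trans_le h.reg.aleph0_le)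
    exact ⟨x, hx a rfl⟩⟩

/-- the positions -/
abbrev N1 : Type := WithTop (ℵ₁ : Cardinal.{0}).ord.ToType

theorem N1_card : #N1 = ℵ₁ := by
  change #(Option _) = _
  rw [mk_option, mk_ord_toType]
  exact add_eq_left aleph0_lt_aleph_one.le (one_lt_aleph0.le.trans aleph0_lt_aleph_one.le)

theorem N1_iio (k : N1) (hk : k < ⊤) : (Iio k).Countable := by
  obtain ⟨a, rfl⟩ := WithTop.ne_top_iff_exists.1 hk.ne
  have h : Iio (a : N1) ⊆ (fun x : (ℵ₁ : Cardinal.{0}).ord.ToType => (x : N1)) '' Iio a := by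
    intro x hx
    obtain ⟨b, rfl⟩ := WithTop.ne_top_iff_exists.1 (hx.trans hk).ne
    exact ⟨b, WithTop.coe_lt_coe.1 hx, rfl⟩
  refine Countable.mono h (Countable.image ?_ _)
  rw [← le_aleph0_iff_set_countable]
  have h2 : #(Iio a) < ℵ₁ := (reg_toType isRegular_aleph_one).iio a
  exact lt_succ_iff.1 (h2.trans_eq succ_aleph0.symm)

theorem N1_top : ¬ (Iio (⊤ : N1)).Countable := by
  intro h
  have h2 : (univ : Set (ℵ₁ : Cardinal.{0}).ord.ToType).Countable := by
    refine Countable.mono ?_ (h.preimage_of_injOn (f := fun x : (ℵ₁ : Cardinal.{0}).ord.ToType =>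
      (x : N1)) (fun x _ y _ hxy => WithTop.coe_injective hxy))
    exact fun x _ => WithTop.coe_lt_top x
  rw [← le_aleph0_iff_set_countable, mk_univ, mk_ord_toType] at h2
  exact h2.not_gt aleph0_lt_aleph_one

theorem N1_lim : Lim (⊤ : N1) := by
  have h := reg_toType (θ := ℵ₁) isRegular_aleph_one
  have h2 := reg_nomax h
  obtain ⟨b⟩ : Nonempty (ℵ₁ : Cardinal.{0}).ord.ToType :=
    mk_ne_zero_iff.1 (by rw [mk_ord_toType]; exact h.reg.pos.ne')
  refine ⟨⟨(b : N1), WithTop.coe_lt_top _⟩, fun m hm => ?_⟩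
  obtain ⟨a, rfl⟩ := WithTop.ne_top_iff_exists.1 hm.ne
  obtain ⟨c, hc⟩ := exists_gt a
  exact ⟨(c : N1), WithTop.coe_lt_coe.2 hc, WithTop.coe_lt_top _⟩

theorem main : ∃ (X : Type) (_ : TopologicalSpace X) (_ : T2Space X) (_ : CompactSpace X),
    (∀ s : Set X, s.Nonempty → ∃ x ∈ s, ∃ U : Set X, IsOpen U ∧ U ∩ s = {x}) ∧
    ¬ ∃ 𝓑 : Set (Set C(X, ℝ)),
        (∀ B ∈ 𝓑,
          @IsOpen C(X, ℝ)
            (TopologicalSpace.induced (fun f : C(X, ℝ) => (f : X → ℝ)) inferInstance) B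
          ∧ B.Nonempty) ∧
        (∀ U : Set C(X, ℝ),
          @IsOpen C(X, ℝ)
            (TopologicalSpace.induced (fun f : C(X, ℝ) => (f : X → ℝ)) inferInstance) U →
          U.Nonempty → ∃ B ∈ 𝓑, B ⊆ U) ∧
        (∀ f : C(X, ℝ), {B ∈ 𝓑 | f ∈ B}.Countable) := by
  have h1 : (succ nu).IsRegular := isRegular_succ nu_reg.aleph0_le
  have h2 : (succ (succ nu)).IsRegular := isRegular_succ h1.aleph0_le
  let W : Type := (succ (succ nu)).ord.ToType
  have hW : Reg W (succ (succ nu)) := reg_toType h2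
  have := reg_nomax hW
  let Co : Type := (succ nu).ord.ToType
  have hCo : #Co = succ nu := mk_ord_toType _
  have : Nonempty Co := mk_ne_zero_iff.1 (by rw [hCo]; exact h1.pos.ne')
  obtain ⟨col, hcol⟩ := thmC hW hCo.le
  obtain ⟨code, hcode⟩ := code_ex (N := N1) hW N1_card.le hCo
  obtain ⟨pi, hpi, hpi'⟩ := pi_ex (N := N1) hW N1_card.le
  let D : Dat N1 W Co := ⟨col, code, pi, hcode, hpi, hpi'⟩
  obtain ⟨U, hU⟩ := exU D
  have hF : Fam U := fam N1_card.le hU
  have hH : Hit U := hit hW N1_card N1_iio N1_top N1_lim D hcol hU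
  obtain ⟨t, t1, t2, t3, t4⟩ := space hF
  exact ⟨Option W, t, t1, t2, t3, no_base hW hF.small hH t4⟩

end Pool.Agent.H732.CP
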