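import Mathlib

/-!
Project CP (helper732): a compact scattered space `X` such that `C_p(X)` has no point-countable
pi-base, in ZFC.  Definitions.
-/

set_option autoImplicit false

namespace Pool.Agent.H732.CP

open Set Cardinal Order

/-- `W` is the well order of the regular cardinal `θ`. -/
structure Reg (W : Type) [LinearOrder W] (θ : Cardinal.{0}) : Prop where
  reg : θ.IsRegular
  card : #W = θ
  iio : ∀ x : W, #(Iio x) < θ

section order

variable {W : Type} [LinearOrder W]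

/-- cofinality at least `c`: every set of size `< c` below `x` is bounded below `x`. -/
def Cf (c : Cardinal.{0}) (x : W) : Prop :=
  ∀ E : Set W, #E < c → (∀ y ∈ E, y < x) → ∃ z < x, ∀ y ∈ E, y < z

/-- stationary sets, through closure points of functions -/
def St (S : Set W) : Prop := ∀ (g : W → W) (a : W), ∃ x ∈ S, a < x ∧ ∀ y < x, g y < x

/-- unbounded sets -/
def Unb (T : Set W) : Prop := ∀ a, ∃ d ∈ T, a < d

/-- The strong colouring used in the construction. -/
def SCol {Co : Type} (c : W → W → Co) : Prop :=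
  ∀ (A : W → Set W) (T : Set W), (∀ d, #(A d) ≤ ℵ₁) → Unb T →
    (∀ d ∈ T, ∀ x ∈ A d, d ≤ x) →
    ∃ δ, ∀ β ∈ T, δ ≤ β → ∀ φ : W → Co, ∃ α ∈ T, α < δ ∧
      ∀ x ∈ A α, x < β ∧ ∀ y ∈ A β, c x y = φ y

/-- limit points of a linear order -/
def Lim (k : W) : Prop := (∃ m, m < k) ∧ ∀ m < k, ∃ m', m < m' ∧ m' < k

end order

/-- Sequences of blocks: position in `N`, coordinate in `ℕ`, index of the enumeration in `N`. -/
abbrev Sq (N W : Type) : Type := N → ℕ → N → Option W

section seq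

variable {N W : Type} [LinearOrder N]

open Classical in
/-- truncation of a sequence to the positions below `k` -/
noncomputable def tr (s : Sq N W) (k : N) : Sq N W := fun i j m => if i < k then s i j m else none

/-- the set enumerated at position `k`, coordinate `j` -/
def V (s : Sq N W) (k : N) (j : ℕ) : Set W := {x | ∃ m, s k j m = some x}

/-- the whole block at position `k` -/
def VV (s : Sq N W) (k : N) : Set W := {x | ∃ j, x ∈ V s k j}

end seq

/-- The combinatorial data of the construction. -/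
structure Dat (N W Co : Type) [LinearOrder N] [LinearOrder W] where
  col : W → W → Co
  code : N → Sq N W → W → Co
  pi : N → Sq N W → ℕ → W
  code_inj : ∀ i i' s s' y, (∀ k j, ∀ x ∈ V (tr s i) k j, x < y) →
    (∀ k j, ∀ x ∈ V (tr s' i') k j, x < y) → code i (tr s i) y = code i' (tr s' i') y →
    i = i' ∧ tr s i = tr s' i'
  pi_inj : ∀ i i' s s' j j', pi i s j = pi i' s' j' → i = i' ∧ s = s' ∧ j = j'
  pi_gt : ∀ i s j k j', ∀ x ∈ V s k j', x < pi i s j

section legit

variable {N W Co : Type} [LinearOrder N] [LinearOrder W]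

/-- the pair `(l, s)` with coordinate `j` gives a limit point -/
structure Legit (D : Dat N W Co) (U : W → Set W) (l : N) (s : Sq N W) (j : ℕ) : Prop where
  lim : Lim l
  tr_eq : tr s l = s
  form : ∀ k < l, ∀ i, V s k i = ∅ ∨ ∃ a ∈ V s k i, ∃ F : Finset W, (∀ f ∈ F, f < a) ∧
    V s k i = U a \ {x | ∃ f ∈ F, x ∈ U f}
  good : ∀ k k', k < k' → k' < l → ∀ x ∈ VV s k, ∀ y ∈ VV s k',
    x < y ∧ D.col x y = D.code k (tr s k) y
  disj : ∀ k < l, ∀ i i', i ≠ i' → ∀ x ∈ V s k i, x ∉ V s k i'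
  gap : ∀ k < l, Lim k → ∀ i, ∀ x ∈ VV s k, D.pi k (tr s k) i < x
  ne : ∀ k < l, (V s k j).Nonempty

/-- the extended block of `(l, s, j)` at the position `k` -/
def Vh (D : Dat N W Co) (s : Sq N W) (j : ℕ) (k : N) : Set W :=
  {x | x ∈ V s k j ∨ (Lim k ∧ x = D.pi k (tr s k) j)}

/-- the body of the recursion -/
def Body (D : Dat N W Co) (U : W → Set W) (z : W) : Set W :=
  {x | x = z ∨ ∃ l s j, D.pi l s j = z ∧ Legit D U l s j ∧ ∃ k < l, x ∈ Vh D s j k}

/-- the tail of the point given by `(l, s, j)` above `k` -/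
def Tl (D : Dat N W Co) (l : N) (s : Sq N W) (j : ℕ) (k : N) : Set W :=
  {x | x = D.pi l s j ∨ ∃ i, k < i ∧ i < l ∧ x ∈ Vh D s j i}

/-- the set `C` decides the point given by `(l, s, j)` -/
def Dec (D : Dat N W Co) (l : N) (s : Sq N W) (j : ℕ) (C : Set W) : Prop :=
  ∃ k < l, Tl D l s j k ⊆ C ∨ ∀ x ∈ Tl D l s j k, x ∉ C

/-- the separation statement for the point given by `(l, s, j)` -/
def SS (D : Dat N W Co) (U : W → Set W) (l : N) (s : Sq N W) (j : ℕ) : Prop :=
  ∀ y < D.pi l s j, ∃ k < l, ∀ x ∈ Tl D l s j k, x ∉ U y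

/-- every family of tuples of size `|W|` has an uncountable subfamily in disjoint sets `U x` -/
def Hit (U : W → Set W) : Prop :=
  ∀ (n : ℕ) (z : W → ℕ → W) (S : Set W) (γ : W) (R : Set W), 0 < n → Unb S →
    (∀ δ ∈ S, δ ≤ z δ 0 ∧ ∀ i i', i < i' → i' < n → z δ i < z δ i') →
    (∀ δ ∈ S, {x | x < δ ∧ ∃ i < n, x ∈ U (z δ i)} = R) →
    ∃ Q ⊆ S, ¬ Q.Countable ∧ ∃ x : ℕ → W, (∀ i < n, ∀ y ∈ U (x i), γ < y) ∧
      (∀ i < n, ∀ i' < n, i ≠ i' → ∀ y ∈ U (x i), y ∉ U (x i')) ∧
      ∀ δ ∈ Q, ∀ i < n, z δ i ∈ U (x i)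

end legit

/-- `U` is a family of clopen sets of a compact scattered space on `W` plus a point at infinity. -/
structure Fam {W : Type} [LinearOrder W] (U : W → Set W) : Prop where
  self : ∀ x, x ∈ U x
  le : ∀ x, ∀ y ∈ U x, y ≤ x
  small : ∀ x, #(U x) ≤ ℵ₁
  conv : ∀ (F : Ultrafilter W) (z : W), U z ∈ F → ∃ x, ∀ y, U y ∈ F ↔ x ∈ U y

end Pool.Agent.H732.CP
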